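import Mathlib

/-!
Explicit group law on a short Weierstrass curve `y² = x³ + A x + B`.
-/

set_option autoImplicit false

open WeierstrassCurve

namespace Pool.Agent.H422.HE

/-- short Weierstrass curves -/
structure Short {F : Type*} [Field F] (E : WeierstrassCurve F) : Prop where
  a1 : E.a₁ = 0
  a2 : E.a₂ = 0
  a3 : E.a₃ = 0

section defs
variable {F : Type*} [CommRing F]

/-- the cubic -/
def ff (A B x : F) : F := x ^ 3 + A * x + B
/-- its derivative -/
def ff' (A x : F) : F := 3 * x ^ 2 + A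
/-- the third division polynomial -/
def psi (A B x : F) : F := 3 * x ^ 4 + 6 * A * x ^ 2 + 12 * B * x - A ^ 2
/-- numerator of `x(3P)` -/
def phi (A B x : F) : F :=
  x * psi A B x ^ 2 - 8 * ff A B x * ff' A x * psi A B x + 64 * ff A B x ^ 3
/-- numerator of `y(3P) / y(P)` -/
def omg (A B x : F) : F :=
  -psi A B x ^ 3 - 4 * (16 * ff A B x ^ 2 - ff' A x * psi A B x) *
    (8 * ff A B x ^ 2 - ff' A x * psi A B x)
/-- the symmetric form -/
def GG (A B x₁ x₂ z : F) : F :=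
  (x₁ * x₂ + x₁ * z + x₂ * z - A) ^ 2 - 4 * (x₁ + x₂ + z) * (x₁ * x₂ * z + B)

lemma psi_eq (A B x : F) : psi A B x = 12 * x * ff A B x - ff' A x ^ 2 := by
  simp only [psi, ff, ff']; ring

lemma GG_symm (A B x₁ x₂ z : F) : GG A B x₁ x₂ z = GG A B x₂ z x₁ := by
  simp only [GG]; ring

end defs

section curve

variable {F : Type*} [Field F] {E : WeierstrassCurve F}

lemma eqn (hE : Short E) {x y : F} :
    E.toAffine.Equation x y ↔ y ^ 2 = ff E.a₄ E.a₆ x := by
  rw [Affine.equation_iff, hE.a1, hE.a2, hE.a3]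
  simp only [ff]
  constructor <;> intro h <;> linear_combination h

lemma negY (hE : Short E) (x y : F) : E.toAffine.negY x y = -y := by
  simp [Affine.negY, hE.a1, hE.a3]

/-- the discriminant factor -/
def dsc (A B : F) : F := 4 * A ^ 3 + 27 * B ^ 2

lemma nonsing (hE : Short E) [CharZero F] (hd : dsc E.a₄ E.a₆ ≠ 0) {x y : F}
    (h : y ^ 2 = ff E.a₄ E.a₆ x) : E.toAffine.Nonsingular x y := by
  have : E.IsElliptic := by
    refine ⟨?_⟩
    rw [isUnit_iff_ne_zero]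
    have : E.Δ = -16 * dsc E.a₄ E.a₆ := by
      simp only [WeierstrassCurve.Δ, WeierstrassCurve.b₂, WeierstrassCurve.b₄, WeierstrassCurve.b₆,
        WeierstrassCurve.b₈, hE.a1, hE.a2, hE.a3, dsc]
      ring
    rw [this]
    exact mul_ne_zero (by norm_num) hd
  exact Affine.equation_iff_nonsingular.mp ((eqn hE).mpr h)

lemma neg_some' (hE : Short E) {x y : F} (h : E.toAffine.Nonsingular x y) :
    ∃ h' : E.toAffine.Nonsingular x (-y), -(Affine.Point.some x y h) = Affine.Point.some x (-y) h' := by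
  have h' : E.toAffine.Nonsingular x (-y) := by
    rw [← negY hE x y]; exact (Affine.nonsingular_neg ..).mpr h
  refine ⟨h', ?_⟩
  rw [Affine.Point.neg_some]
  congr 1
  exact negY hE x y

variable [DecidableEq F]

/-- addition of points with different abscissas -/
lemma add_ne (hE : Short E) {x₁ y₁ x₂ y₂ : F} (h₁ : E.toAffine.Nonsingular x₁ y₁)
    (h₂ : E.toAffine.Nonsingular x₂ y₂) (hx : x₁ ≠ x₂) :
    ∃ h : E.toAffine.Nonsingular (((y₁ - y₂) / (x₁ - x₂)) ^ 2 - x₁ - x₂)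
        (-(((y₁ - y₂) / (x₁ - x₂)) * ((((y₁ - y₂) / (x₁ - x₂)) ^ 2 - x₁ - x₂) - x₁) + y₁)),
      Affine.Point.some x₁ y₁ h₁ + Affine.Point.some x₂ y₂ h₂ = Affine.Point.some _ _ h := by
  have key : E.toAffine.addX x₁ x₂ (E.toAffine.slope x₁ x₂ y₁ y₂) =
      ((y₁ - y₂) / (x₁ - x₂)) ^ 2 - x₁ - x₂ := by
    rw [Affine.slope_of_X_ne hx, Affine.addX, hE.a1, hE.a2]; ring
  have key2 : E.toAffine.addY x₁ x₂ y₁ (E.toAffine.slope x₁ x₂ y₁ y₂) =
      (-(((y₁ - y₂) / (x₁ - x₂)) * ((((y₁ - y₂) / (x₁ - x₂)) ^ 2 - x₁ - x₂) - x₁) + y₁)) := by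
    rw [Affine.addY, negY hE, Affine.negAddY, key, Affine.slope_of_X_ne hx]
  have h := Affine.Point.add_of_X_ne (h₁ := h₁) (h₂ := h₂) hx
  have hns := Affine.nonsingular_add h₁ h₂ fun hxy => hx hxy.left
  rw [key, key2] at hns
  refine ⟨hns, h.trans ?_⟩
  congr 1

variable [CharZero F]

/-- doubling -/
lemma dbl (hE : Short E) {x y : F} (h : E.toAffine.Nonsingular x y) (hy : y ≠ 0) :
    ∃ h' : E.toAffine.Nonsingular ((ff' E.a₄ x / (2 * y)) ^ 2 - 2 * x)
        (-((ff' E.a₄ x / (2 * y)) * (((ff' E.a₄ x / (2 * y)) ^ 2 - 2 * x) - x) + y)),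
      Affine.Point.some x y h + Affine.Point.some x y h = Affine.Point.some _ _ h' := by
  have hy' : y ≠ E.toAffine.negY x y := by
    rw [negY hE]
    intro hh
    apply hy
    have h2 : (2 : F) * y = 0 := by linear_combination hh
    rcases mul_eq_zero.mp h2 with h3 | h3
    · norm_num at h3
    · exact h3
  have hs : E.toAffine.slope x x y y = ff' E.a₄ x / (2 * y) := by
    rw [Affine.slope_of_Y_ne rfl hy', negY hE, hE.a1, hE.a2, ff']
    congr 1 <;> ring
  have key : E.toAffine.addX x x (E.toAffine.slope x x y y) =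
      (ff' E.a₄ x / (2 * y)) ^ 2 - 2 * x := by
    rw [hs, Affine.addX, hE.a1, hE.a2]; ring
  have key2 : E.toAffine.addY x x y (E.toAffine.slope x x y y) =
      (-((ff' E.a₄ x / (2 * y)) * (((ff' E.a₄ x / (2 * y)) ^ 2 - 2 * x) - x) + y)) := by
    rw [Affine.addY, negY hE, Affine.negAddY, key, hs]
  have h1 := Affine.Point.add_self_of_Y_ne (h₁ := h) hy'
  have hns := Affine.nonsingular_add h h fun hxy => hy' hxy.right
  rw [key, key2] at hns
  refine ⟨hns, h1.trans ?_⟩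
  congr 1

/-- tripling -/
lemma triple (hE : Short E) {x y : F} (h : E.toAffine.Nonsingular x y)
    (hp : psi E.a₄ E.a₆ x ≠ 0) :
    ∃ h' : E.toAffine.Nonsingular (phi E.a₄ E.a₆ x / psi E.a₄ E.a₆ x ^ 2)
        (y * omg E.a₄ E.a₆ x / psi E.a₄ E.a₆ x ^ 3),
      Affine.Point.some x y h + Affine.Point.some x y h + Affine.Point.some x y h =
        Affine.Point.some _ _ h' := by
  have e := (eqn hE).mp h.1
  by_cases hy : y = 0
  · subst hy
    have hf : ff E.a₄ E.a₆ x = 0 := by rw [← e]; ring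
    have e1 : phi E.a₄ E.a₆ x / psi E.a₄ E.a₆ x ^ 2 = x := by
      rw [phi, hf]; field_simp; ring
    have e2 : 0 * omg E.a₄ E.a₆ x / psi E.a₄ E.a₆ x ^ 3 = 0 := by simp
    have h0 : E.toAffine.Nonsingular (phi E.a₄ E.a₆ x / psi E.a₄ E.a₆ x ^ 2)
        (0 * omg E.a₄ E.a₆ x / psi E.a₄ E.a₆ x ^ 3) := by rw [e1, e2]; exact h
    refine ⟨h0, ?_⟩
    have h2 : Affine.Point.some x 0 h + Affine.Point.some x 0 h = 0 :=
      Affine.Point.add_of_Y_eq rfl (by rw [negY hE]; simp)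
    rw [h2, zero_add]
    congr 1
    · exact e1.symm
    · exact e2.symm
  · obtain ⟨h2, hdb⟩ := dbl hE h hy
    set x2 := (ff' E.a₄ x / (2 * y)) ^ 2 - 2 * x with hx2
    set y2 := (-((ff' E.a₄ x / (2 * y)) * (x2 - x) + y)) with hy2
    have hf0 : ff E.a₄ E.a₆ x ≠ 0 := by rw [← e]; exact pow_ne_zero _ hy
    have hdx : x2 - x = - psi E.a₄ E.a₆ x / (4 * ff E.a₄ E.a₆ x) := by
      rw [hx2, psi_eq, ← e]
      field_simp
      ring
    have hx : x2 ≠ x := by
      intro hh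
      rw [hh, sub_self] at hdx
      have : psi E.a₄ E.a₆ x = 0 := by
        have h4 : (4 * ff E.a₄ E.a₆ x) ≠ 0 := mul_ne_zero (by norm_num) hf0
        have := (div_eq_zero_iff.mp hdx.symm).resolve_right h4
        exact neg_eq_zero.mp this
      exact hp this
    obtain ⟨h3, hadd⟩ := add_ne hE h2 h hx
    have hl : (y2 - y) / (x2 - x) =
        (16 * ff E.a₄ E.a₆ x ^ 2 - ff' E.a₄ x * psi E.a₄ E.a₆ x) / (2 * y * psi E.a₄ E.a₆ x) := by
      rw [hy2, hdx, ← e]
      field_simp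
      ring
    have kx : ((y2 - y) / (x2 - x)) ^ 2 - x2 - x = phi E.a₄ E.a₆ x / psi E.a₄ E.a₆ x ^ 2 := by
      rw [hl, show ((16 * ff E.a₄ E.a₆ x ^ 2 - ff' E.a₄ x * psi E.a₄ E.a₆ x) /
        (2 * y * psi E.a₄ E.a₆ x)) ^ 2 - x2 - x = ((16 * ff E.a₄ E.a₆ x ^ 2 - ff' E.a₄ x *
        psi E.a₄ E.a₆ x) / (2 * y * psi E.a₄ E.a₆ x)) ^ 2 - (x2 - x) - 2 * x by ring, hdx, phi]
      have e3 : ff' E.a₄ x ^ 2 = 12 * x * ff E.a₄ E.a₆ x - psi E.a₄ E.a₆ x := by
        rw [psi_eq]; ring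
      rw [div_pow, mul_pow, mul_pow, e]
      field_simp
      linear_combination (4 * psi E.a₄ E.a₆ x ^ 2) * e3
    have ky : (-(((y2 - y) / (x2 - x)) * ((((y2 - y) / (x2 - x)) ^ 2 - x2 - x) - x2) + y2)) =
        y * omg E.a₄ E.a₆ x / psi E.a₄ E.a₆ x ^ 3 := by
      rw [kx]
      have : (-(((y2 - y) / (x2 - x)) * ((phi E.a₄ E.a₆ x / psi E.a₄ E.a₆ x ^ 2) - x2) + y2)) =
          -(((y2 - y) / (x2 - x)) * ((phi E.a₄ E.a₆ x / psi E.a₄ E.a₆ x ^ 2) - x) + y) := by
        have hxx : x2 - x ≠ 0 := sub_ne_zero.mpr hx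
        field_simp
        ring
      rw [this, hl, phi, omg]
      field_simp
      rw [e]
      ring
    have hns := h3
    rw [ky, kx] at hns
    refine ⟨hns, ?_⟩
    rw [hdb, hadd]
    congr 1

/-- points of order three -/
lemma triple_zero (hE : Short E) {x y : F} (h : E.toAffine.Nonsingular x y)
    (hp : psi E.a₄ E.a₆ x = 0) (hd : dsc E.a₄ E.a₆ ≠ 0) :
    Affine.Point.some x y h + Affine.Point.some x y h + Affine.Point.some x y h = 0 := by
  have e := (eqn hE).mp h.1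
  have hy : y ≠ 0 := by
    rintro rfl
    have hf : ff E.a₄ E.a₆ x = 0 := by rw [← e]; ring
    rw [psi_eq, hf] at hp
    have hf' : ff' E.a₄ x = 0 := by
      have : ff' E.a₄ x ^ 2 = 0 := by linear_combination -hp
      exact pow_eq_zero_iff (two_ne_zero) |>.mp this
    apply hd
    simp only [dsc, ff, ff'] at *
    linear_combination (-27 * x ^ 3 - 27 * E.a₄ * x + 27 * E.a₆) * hf +
      (9 * x ^ 4 + 15 * E.a₄ * x ^ 2 + 4 * E.a₄ ^ 2) * hf'
  obtain ⟨h2, hdb⟩ := dbl hE h hy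
  have hx2 : (ff' E.a₄ x / (2 * y)) ^ 2 - 2 * x = x := by
    rw [psi_eq, ← e] at hp
    field_simp
    linear_combination -hp
  rw [hdb]
  apply Affine.Point.add_of_Y_eq hx2
  rw [negY hE, hx2, sub_self, mul_zero, zero_add]

end curve

end Pool.Agent.H422.HE
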