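import Mathlib
import Pool.Agent.H422.HE.Grp

/-!
Division by three.
-/

set_option autoImplicit false

open WeierstrassCurve Polynomial

namespace Pool.Agent.H422.HE

section

variable {F : Type*} [Field F]

/-- the polynomial `phi - q psi ^ 2` -/
noncomputable def hP (A B q : F) : F[X] :=
  X ^ 9 + C (-9 * q) * X ^ 8 + C (-12 * A) * X ^ 7 + C (-96 * B - 36 * A * q) * X ^ 6 +
    C (30 * A ^ 2 - 72 * B * q) * X ^ 5 + C (-24 * A * B - 30 * A ^ 2 * q) * X ^ 4 +
    C (36 * A ^ 3 + 48 * B ^ 2 - 144 * A * B * q) * X ^ 3 +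
    C (48 * A ^ 2 * B - q * (144 * B ^ 2 - 12 * A ^ 3)) * X ^ 2 +
    C (9 * A ^ 4 + 96 * A * B ^ 2 + 24 * A ^ 2 * B * q) * X +
    C (8 * A ^ 3 * B + 64 * B ^ 3 - A ^ 4 * q)

lemma hP_natDegree (A B q : F) : (hP A B q).natDegree = 9 := by
  unfold hP; compute_degree!

lemma hP_monic (A B q : F) : (hP A B q).Monic := by
  unfold hP; monicity!

lemma hP_eval (A B q x : F) : (hP A B q).eval x = phi A B x - q * psi A B x ^ 2 := by
  simp only [hP, eval_add, eval_mul, eval_pow, eval_X, eval_C, phi, psi, ff, ff']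
  ring

lemma hP_deriv (A B q x : F) : psi A B x * (hP A B q).derivative.eval x =
    3 * omg A B x + 24 * ff A B x * (phi A B x - q * psi A B x ^ 2) := by
  simp only [hP, derivative_add, derivative_mul, derivative_C, derivative_X_pow, derivative_X,
    eval_add, eval_mul, eval_pow, eval_X, eval_C, phi, psi, ff, ff', omg, eval_zero, eval_one,
    Nat.cast_ofNat, map_ofNat, eval_ofNat]
  norm_num
  ring

lemma ff_ne_of_psi [CharZero F] {A B x : F} (hd : dsc A B ≠ 0) (hp : psi A B x = 0) :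
    ff A B x ≠ 0 := by
  intro hf
  rw [psi_eq, hf] at hp
  have hf' : ff' A x = 0 := by
    have : ff' A x ^ 2 = 0 := by linear_combination -hp
    exact pow_eq_zero_iff (two_ne_zero) |>.mp this
  apply hd
  simp only [dsc, ff, ff'] at *
  linear_combination (-27 * x ^ 3 - 27 * A * x + 27 * B) * hf +
    (9 * x ^ 4 + 15 * A * x ^ 2 + 4 * A ^ 2) * hf'

lemma phi_ne_of_psi [CharZero F] {A B x : F} (hd : dsc A B ≠ 0) (hp : psi A B x = 0) :
    phi A B x ≠ 0 := by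
  have h1 := ff_ne_of_psi hd hp
  rw [phi, hp]
  have : x * 0 ^ 2 - 8 * ff A B x * ff' A x * 0 + 64 * ff A B x ^ 3 = 64 * ff A B x ^ 3 := by ring
  rw [this]
  exact mul_ne_zero (by norm_num) (pow_ne_zero _ h1)

end

section

variable {F : Type*} [Field F] [CharZero F] [DecidableEq F] {E : WeierstrassCurve F}

/-- what tripling means -/
lemma of_triple (hE : Short E) (hd : dsc E.a₄ E.a₆ ≠ 0) {x y q s : F}
    (h : E.toAffine.Nonsingular x y) (h' : E.toAffine.Nonsingular q s)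
    (e : Affine.Point.some x y h + Affine.Point.some x y h + Affine.Point.some x y h =
      Affine.Point.some q s h') :
    psi E.a₄ E.a₆ x ≠ 0 ∧ phi E.a₄ E.a₆ x = q * psi E.a₄ E.a₆ x ^ 2 ∧
      y * omg E.a₄ E.a₆ x = s * psi E.a₄ E.a₆ x ^ 3 := by
  have hp : psi E.a₄ E.a₆ x ≠ 0 := by
    intro h0
    rw [triple_zero hE h h0 hd] at e
    exact Affine.Point.some_ne_zero _ e.symm
  obtain ⟨h1, h2⟩ := triple hE h hp
  rw [e] at h2
  simp only [Affine.Point.some.injEq] at h2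
  refine ⟨hp, ?_, ?_⟩
  · rw [h2.1]; field_simp
  · rw [h2.2]; field_simp

/-- the root is simple -/
lemma deriv_ne (hE : Short E) (hd : dsc E.a₄ E.a₆ ≠ 0) {x y q s : F}
    (h : E.toAffine.Nonsingular x y) (h' : E.toAffine.Nonsingular q s) (hs : s ≠ 0)
    (e : Affine.Point.some x y h + Affine.Point.some x y h + Affine.Point.some x y h =
      Affine.Point.some q s h') :
    (hP E.a₄ E.a₆ q).eval x = 0 ∧ (hP E.a₄ E.a₆ q).derivative.eval x ≠ 0 := by
  obtain ⟨h1, h2, h3⟩ := of_triple hE hd h h' e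
  have h4 : (hP E.a₄ E.a₆ q).eval x = 0 := by rw [hP_eval, h2, sub_self]
  refine ⟨h4, fun h5 => ?_⟩
  have h6 := hP_deriv E.a₄ E.a₆ q x
  rw [h5, h2, sub_self, mul_zero, mul_zero, add_zero] at h6
  have h7 : omg E.a₄ E.a₆ x = 0 := by
    rcases mul_eq_zero.mp h6.symm with h8 | h8
    · norm_num at h8
    · exact h8
  rw [h7, mul_zero] at h3
  exact mul_ne_zero hs (pow_ne_zero 3 h1) h3.symm

/-- over an algebraically closed field all points are divisible by three -/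
theorem div3 [IsAlgClosed F] (hE : Short E) (hd : dsc E.a₄ E.a₆ ≠ 0) (P : E.toAffine.Point) :
    ∃ R : E.toAffine.Point, R + R + R = P := by
  match P with
  | 0 => exact ⟨0, by simp⟩
  | .some q s h =>
    obtain ⟨x, hx⟩ := IsAlgClosed.exists_root (hP E.a₄ E.a₆ q) (by
      rw [degree_eq_natDegree (hP_monic _ _ _).ne_zero, hP_natDegree]; norm_num)
    rw [IsRoot.def, hP_eval] at hx
    have hp : psi E.a₄ E.a₆ x ≠ 0 := by
      intro h0
      apply phi_ne_of_psi hd h0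
      rw [h0] at hx
      linear_combination hx
    obtain ⟨y, hy⟩ := IsAlgClosed.exists_pow_nat_eq (ff E.a₄ E.a₆ x) (n := 2) (by norm_num)
    have hns : E.toAffine.Nonsingular x y := nonsing hE hd hy
    obtain ⟨h1, h2⟩ := triple hE hns hp
    have hq : phi E.a₄ E.a₆ x / psi E.a₄ E.a₆ x ^ 2 = q := by
      field_simp
      linear_combination hx
    have h3 : (Affine.Point.some _ _ h1 : E.toAffine.Point) = Affine.Point.some q s h ∨
        (Affine.Point.some _ _ h1 : E.toAffine.Point) = -Affine.Point.some q s h :=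
      Affine.Point.X_eq_iff.mp hq
    rcases h3 with h3 | h3
    · exact ⟨_, h2.trans h3⟩
    · refine ⟨-Affine.Point.some x y hns, ?_⟩
      rw [← neg_inj, ← h3, ← h2]
      abel

/-- the symmetric form and the two sums -/
lemma GG_sum (hE : Short E) {x₁ y₁ x₂ y₂ : F} (h₁ : E.toAffine.Nonsingular x₁ y₁)
    (h₂ : E.toAffine.Nonsingular x₂ y₂) (hx : x₁ ≠ x₂) :
    ∃ (a ya b yb : F) (ha : E.toAffine.Nonsingular a ya) (hb : E.toAffine.Nonsingular b yb),
      Affine.Point.some x₁ y₁ h₁ + Affine.Point.some x₂ y₂ h₂ = Affine.Point.some a ya ha ∧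
      Affine.Point.some x₁ y₁ h₁ - Affine.Point.some x₂ y₂ h₂ = Affine.Point.some b yb hb ∧
      (∀ z, (x₁ - x₂) ^ 2 * ((z - a) * (z - b)) = GG E.a₄ E.a₆ x₁ x₂ z) ∧
      (x₁ - x₂) ^ 2 * (b - a) = 4 * (y₁ * y₂) := by
  obtain ⟨h₂', hn⟩ := neg_some' hE h₂
  obtain ⟨ha, ha'⟩ := add_ne hE h₁ h₂ hx
  obtain ⟨hb, hb'⟩ := add_ne hE h₁ h₂' hx
  have e1 := (eqn hE).mp h₁.1
  have e2 := (eqn hE).mp h₂.1
  have hx' : x₁ - x₂ ≠ 0 := sub_ne_zero.mpr hx
  refine ⟨_, _, _, _, ha, hb, ha', ?_, ?_, ?_⟩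
  · rw [sub_eq_add_neg, hn, hb']
  · intro z
    simp only [GG, ff] at *
    have : y₁ - -y₂ = y₁ + y₂ := by ring
    rw [this]
    field_simp
    linear_combination (-2 * ((x₁ - x₂) ^ 2 * (z + x₁ + x₂)) + (y₁ ^ 2 - y₂ ^ 2 +
      (x₁ ^ 3 + E.a₄ * x₁ + E.a₆) - (x₂ ^ 3 + E.a₄ * x₂ + E.a₆))) * e1 +
      (-2 * ((x₁ - x₂) ^ 2 * (z + x₁ + x₂)) - (y₁ ^ 2 - y₂ ^ 2 +
      (x₁ ^ 3 + E.a₄ * x₁ + E.a₆) - (x₂ ^ 3 + E.a₄ * x₂ + E.a₆))) * e2
  · field_simp
    ring

end

end Pool.Agent.H422.HE
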