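import Mathlib

/-!
Values of polynomials and valuations.
-/

set_option autoImplicit false

open Polynomial

namespace Pool.Agent.H422.HE

section gp

variable {Γ : Type*} [CommGroupWithZero Γ]

lemma sq_of_mul_left {a b : Γ} (ha : IsSquare a) (ha0 : a ≠ 0) (h : IsSquare (a * b)) : IsSquare b := by
  have : b = (a * b) / a := by field_simp
  rw [this]
  exact h.div ha

lemma sq_of_mul_right {a b : Γ} (hb : IsSquare b) (hb0 : b ≠ 0) (h : IsSquare (a * b)) : IsSquare a :=
  sq_of_mul_left hb hb0 (by rwa [mul_comm] at h)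

lemma sq_of_odd_pow {a : Γ} {n : ℕ} (hn : Odd n) (ha : a ≠ 0) (h : IsSquare (a ^ n)) : IsSquare a := by
  obtain ⟨k, rfl⟩ := hn
  have : IsSquare (a ^ (2 * k)) := ⟨a ^ k, by rw [← pow_add]; congr 1; ring⟩
  rw [pow_succ] at h
  exact sq_of_mul_left this (pow_ne_zero _ ha) h

end gp

section val

variable {K : Type*} [Field K] {Γ : Type*} [LinearOrderedCommGroupWithZero Γ] (v : Valuation K Γ)

lemma pow_sub_pow_le {x r : K} (hx : v x ≤ 1) (hr : v r ≤ 1) (n : ℕ) :
    v (x ^ n - r ^ n) ≤ v (x - r) := by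
  induction n with
  | zero => simp
  | succ n ih =>
    have : x ^ (n + 1) - r ^ (n + 1) = x * (x ^ n - r ^ n) + (x - r) * r ^ n := by ring
    rw [this]
    refine (v.map_add _ _).trans (max_le ?_ ?_)
    · rw [map_mul]
      calc v x * v (x ^ n - r ^ n) ≤ 1 * v (x - r) := mul_le_mul' hx ih
        _ = v (x - r) := one_mul _
    · rw [map_mul, map_pow]
      calc v (x - r) * v r ^ n ≤ v (x - r) * 1 := mul_le_mul' le_rfl (pow_le_one' hr n)
        _ = v (x - r) := mul_one _

/-- polynomials with integral coefficients -/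
def IntP (h : K[X]) : Prop := ∀ i, v (h.coeff i) ≤ 1

lemma eval_sub_le {h : K[X]} (hh : IntP v h) {x r : K} (hx : v x ≤ 1) (hr : v r ≤ 1) :
    v (h.eval x - h.eval r) ≤ v (x - r) := by
  rw [eval_eq_sum_range, eval_eq_sum_range, ← Finset.sum_sub_distrib]
  apply Valuation.map_sum_le
  intro i _
  rw [← mul_sub, map_mul]
  calc v (h.coeff i) * v (x ^ i - r ^ i) ≤ 1 * v (x - r) := mul_le_mul' (hh i) (pow_sub_pow_le v hx hr i)
    _ = v (x - r) := one_mul _

lemma eval_le_one {h : K[X]} (hh : IntP v h) {x : K} (hx : v x ≤ 1) : v (h.eval x) ≤ 1 := by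
  rw [eval_eq_sum_range]
  apply Valuation.map_sum_le
  intro i _
  rw [map_mul, map_pow]
  exact mul_le_one' (hh i) (pow_le_one' hx i)

lemma eval_large {h : K[X]} (hh : IntP v h) (hm : h.Monic) {x : K} (hx : 1 < v x) :
    v (h.eval x) = v x ^ h.natDegree := by
  rw [eval_eq_sum_range, Finset.sum_range_succ, hm.coeff_natDegree, one_mul]
  rw [add_comm, Valuation.map_add_eq_of_lt_left, map_pow]
  rw [map_pow]
  rcases Nat.eq_zero_or_pos h.natDegree with h0 | h0
  · rw [h0]; simp
  apply Valuation.map_sum_lt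
  · exact pow_ne_zero _ (ne_of_gt (lt_trans zero_lt_one hx))
  · intro i hi
    rw [Finset.mem_range] at hi
    rw [map_mul, map_pow]
    calc v (h.coeff i) * v x ^ i ≤ 1 * v x ^ i := mul_le_mul' (hh i) le_rfl
      _ = v x ^ i := one_mul _
      _ < v x ^ h.natDegree := pow_lt_pow_right₀ hx hi

lemma v_sub_of_large {x r : K} (hr : v r ≤ 1) (hx : 1 < v x) : v (x - r) = v x := by
  exact Valuation.map_sub_eq_of_lt_left v (lt_of_le_of_lt hr hx)

/-- simple roots, one valuation -/
lemma root_sq {h g : K[X]} {r : K} (hh : IntP v h) (hg : IntP v g) (hm : h.Monic)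
    (hodd : Odd h.natDegree) (hr : v r ≤ 1) (hfac : h = (X - C r) * g) (hgr : v (g.eval r) = 1)
    {x : K} (hsq : IsSquare (v (h.eval x))) : IsSquare (v (x - r)) := by
  rcases lt_or_ge 1 (v x) with h1 | h1
  · rw [v_sub_of_large v hr h1]
    rw [eval_large v hh hm h1] at hsq
    exact sq_of_odd_pow hodd (ne_of_gt (lt_trans zero_lt_one h1)) hsq
  · have h2 : v (x - r) ≤ 1 := (v.map_sub _ _).trans (max_le h1 hr)
    rcases lt_or_eq_of_le h2 with h3 | h3
    · have h4 : v (g.eval x) = 1 := by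
        have h5 : v (g.eval x - g.eval r) < 1 := lt_of_le_of_lt (eval_sub_le v hg h1 hr) h3
        have h6 : g.eval x = g.eval r + (g.eval x - g.eval r) := by ring
        rw [h6, Valuation.map_add_eq_of_lt_left, hgr]
        rw [hgr]; exact h5
      have h5 : v (h.eval x) = v (x - r) := by
        rw [hfac, eval_mul, eval_sub, eval_X, eval_C, map_mul, h4, mul_one]
      rwa [h5] at hsq
    · rw [h3]; exact IsSquare.one

end val

end Pool.Agent.H422.HE
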