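import Mathlib
import Pool.Agent.H422.HE.Grp
import Pool.Agent.H422.HE.Val

/-!
The local step.
-/

set_option autoImplicit false

namespace Pool.Agent.H422.HE

section

variable {K : Type*} [Field K] {Γ : Type*} [LinearOrderedCommGroupWithZero Γ] (v : Valuation K Γ)

lemma v_ff_large {A B x : K} (hA : v A ≤ 1) (hB : v B ≤ 1) (hx : 1 < v x) :
    v (ff A B x) = v x ^ 3 := by
  have h0 : v x ≠ 0 := ne_of_gt (lt_trans zero_lt_one hx)
  have h1 : v (A * x + B) < v (x ^ 3) := by
    refine lt_of_le_of_lt (v.map_add _ _) (max_lt ?_ ?_)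
    · rw [map_mul, map_pow]
      calc v A * v x ≤ 1 * v x := mul_le_mul' hA le_rfl
        _ = v x ^ 1 := by rw [one_mul, pow_one]
        _ < v x ^ 3 := pow_lt_pow_right₀ hx (by norm_num)
    · rw [map_pow]
      calc v B ≤ 1 := hB
        _ < v x ^ 3 := one_lt_pow₀ hx (by norm_num)
  have h2 : ff A B x = x ^ 3 + (A * x + B) := by simp only [ff]; ring
  rw [h2, Valuation.map_add_eq_of_lt_left v h1, map_pow]

lemma v_ff_le {A B x : K} (hA : v A ≤ 1) (hB : v B ≤ 1) (hx : v x ≤ 1) :
    v (ff A B x) ≤ 1 := by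
  have h2 : ff A B x = x ^ 3 + (A * x + B) := by simp only [ff]; ring
  rw [h2]
  refine (v.map_add _ _).trans (max_le ?_ ((v.map_add _ _).trans (max_le ?_ hB)))
  · rw [map_pow]; exact pow_le_one' hx 3
  · rw [map_mul]; exact mul_le_one' hA hx

lemma v_ff_sub {A B x r : K} (hA : v A ≤ 1) (hx : v x ≤ 1) (hr : v r ≤ 1) :
    v (ff A B x - ff A B r) ≤ v (x - r) := by
  have h2 : ff A B x - ff A B r = (x ^ 3 - r ^ 3) + A * (x - r) := by simp only [ff]; ring
  rw [h2]
  refine (v.map_add _ _).trans (max_le (pow_sub_pow_le v hx hr 3) ?_)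
  rw [map_mul]
  calc v A * v (x - r) ≤ 1 * v (x - r) := mul_le_mul' hA le_rfl
    _ = v (x - r) := one_mul _

/-- large abscissas of points have square values -/
lemma sq_of_large {A B x y : K} (hA : v A ≤ 1) (hB : v B ≤ 1) (hx : 1 < v x)
    (e : y ^ 2 = ff A B x) : IsSquare (v x) := by
  have h0 : v x ≠ 0 := ne_of_gt (lt_trans zero_lt_one hx)
  have h1 : v x ^ 3 = v y ^ 2 := by rw [← v_ff_large v hA hB hx, ← e, map_pow]
  exact sq_of_odd_pow (n := 3) (by decide) h0 (by rw [h1]; exact ⟨v y, sq _⟩)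

/-- the local step -/
lemma local_step {A B x1 y1 x2 y2 t a b ya yb r s : K}
    (hA : v A ≤ 1) (hB : v B ≤ 1) (h2 : v 2 = 1) (hx2 : v x2 ≤ 1) (ht : v t ≤ 1)
    (hr : v r ≤ 1) (hs : v s ≤ 1) (hy2 : v y2 = 1) (hx2t : v (x2 - t) = 1)
    (hfr : v (ff A B r) = 1) (hfs : v (ff A B s) = 1)
    (e1 : y1 ^ 2 = ff A B x1) (ea : ya ^ 2 = ff A B a) (eb : yb ^ 2 = ff A B b)
    (hx : x1 ≠ x2) (hxr : x1 ≠ r) (hxs : x1 ≠ s)
    (G1 : (x1 - x2) ^ 2 * ((t - a) * (t - b)) = (x2 - t) ^ 2 * ((x1 - r) * (x1 - s)))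
    (G2 : (x1 - x2) ^ 2 * (b - a) = 4 * (y1 * y2))
    (hsr : IsSquare (v (x1 - r))) (hss : IsSquare (v (x1 - s))) : IsSquare (v (b - t)) := by
  have hx' : x1 - x2 ≠ 0 := sub_ne_zero.mpr hx
  have hvx : v (x1 - x2) ≠ 0 := (Valuation.ne_zero_iff _).mpr hx'
  have hxr' : v (x1 - r) ≠ 0 := (Valuation.ne_zero_iff _).mpr (sub_ne_zero.mpr hxr)
  have hxs' : v (x1 - s) ≠ 0 := (Valuation.ne_zero_iff _).mpr (sub_ne_zero.mpr hxs)
  have hG := congrArg v G1
  simp only [map_mul, map_pow, hx2t, one_pow, one_mul] at hG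
  rw [Valuation.map_sub_swap v t a, Valuation.map_sub_swap v t b] at hG
  have hab : v (a - t) ≠ 0 ∧ v (b - t) ≠ 0 := by
    constructor
    · intro h
      rw [h, zero_mul, mul_zero] at hG
      exact (mul_ne_zero hxr' hxs') hG.symm
    · intro h
      rw [h, mul_zero, mul_zero] at hG
      exact (mul_ne_zero hxr' hxs') hG.symm
  have hprod : IsSquare (v (a - t) * v (b - t)) := by
    apply sq_of_mul_left (a := v (x1 - x2) ^ 2) ⟨v (x1 - x2), sq _⟩ (pow_ne_zero _ hvx)
    rw [hG]
    exact hsr.mul hss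
  have big : ∀ c yc : K, yc ^ 2 = ff A B c → 1 < v (c - t) → IsSquare (v (c - t)) := by
    intro c yc ec hc
    have h3 : 1 < v c := by
      by_contra hcon
      rw [not_lt] at hcon
      exact absurd ((v.map_sub c t).trans (max_le hcon ht)) (not_le.mpr hc)
    rw [v_sub_of_large v ht h3]
    exact sq_of_large v hA hB h3 ec
  rcases lt_trichotomy (v (b - t)) 1 with hb | hb | hb
  · apply sq_of_mul_left _ hab.1 hprod
    rcases lt_trichotomy (v (a - t)) 1 with ha | ha | ha
    · exfalso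
      -- both small
      have hba : v (b - a) < 1 := by
        have : b - a = (b - t) - (a - t) := by ring
        rw [this]
        exact lt_of_le_of_lt (v.map_sub _ _) (max_lt hb ha)
      have h4 : v (4 : K) = 1 := by
        have : (4 : K) = 2 * 2 := by norm_num
        rw [this, map_mul, h2, one_mul]
      have hG2 := congrArg v G2
      simp only [map_mul, map_pow, h4, hy2, one_mul, mul_one] at hG2
      have hy1 : v y1 < v (x1 - x2) ^ 2 := by
        rw [← hG2]
        calc v (x1 - x2) ^ 2 * v (b - a) < v (x1 - x2) ^ 2 * 1 :=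
              mul_lt_mul_of_pos_left hba (pow_pos (zero_lt_iff.mpr hvx) 2)
          _ = v (x1 - x2) ^ 2 := mul_one _
      have hab1 : v (a - t) * v (b - t) < 1 :=
        mul_lt_one_of_nonneg_of_lt_one_left zero_le ha hb.le
      rcases lt_or_ge 1 (v x1) with hx1 | hx1
      · rw [v_sub_of_large v hx2 hx1, v_sub_of_large v hr hx1, v_sub_of_large v hs hx1] at hG
        have h0 : v x1 ≠ 0 := ne_of_gt (lt_trans zero_lt_one hx1)
        have h5 : v (a - t) * v (b - t) = 1 := by
          have h6 : v x1 ^ 2 * (v (a - t) * v (b - t)) = v x1 ^ 2 * 1 := by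
            rw [hG, mul_one, sq]
          exact mul_left_cancel₀ (pow_ne_zero 2 h0) h6
        rw [h5] at hab1
        exact lt_irrefl _ hab1
      · have hd : v (x1 - x2) ≤ 1 := (v.map_sub _ _).trans (max_le hx1 hx2)
        have hy1' : v y1 < 1 := lt_of_lt_of_le hy1 (pow_le_one' hd 2)
        have hf1 : v (ff A B x1) < 1 := by
          rw [← e1, map_pow]
          exact pow_lt_one₀ zero_le hy1' (by norm_num)
        have hprod1 : v (x1 - r) * v (x1 - s) < 1 := by
          rw [← hG]
          calc v (x1 - x2) ^ 2 * (v (a - t) * v (b - t)) ≤ 1 * (v (a - t) * v (b - t)) :=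
                mul_le_mul' (pow_le_one' hd 2) le_rfl
            _ < 1 := by rw [one_mul]; exact hab1
        have fin : ∀ c : K, v c ≤ 1 → v (ff A B c) = 1 → v (x1 - c) < 1 → False := by
          intro c hc hfc hlt
          have h7 : v (ff A B x1 - ff A B c) < 1 := lt_of_le_of_lt (v_ff_sub v hA hx1 hc) hlt
          have h8 : ff A B c = ff A B x1 - (ff A B x1 - ff A B c) := by ring
          have h9 : v (ff A B c) < 1 := by
            rw [h8]
            exact lt_of_le_of_lt (v.map_sub _ _) (max_lt hf1 h7)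
          rw [hfc] at h9
          exact lt_irrefl _ h9
        by_cases hlt : v (x1 - r) < 1
        · exact fin r hr hfr hlt
        · by_cases hlt' : v (x1 - s) < 1
          · exact fin s hs hfs hlt'
          · rw [not_lt] at hlt hlt'
            exact absurd hprod1 (not_lt.mpr (one_le_mul hlt hlt'))
    · rw [ha]; exact IsSquare.one
    · exact big a ya ea ha
  · rw [hb]; exact IsSquare.one
  · exact big b yb eb hb

end

end Pool.Agent.H422.HE
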