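import Mathlib
import Pool.Agent.H422.HE.Grp
import Pool.Graph.R_seed8.H437R2.Man.MWWeak

/-!
Weak Mordell-Weil for multiplication by three (from the Mordell-Weil theorem of the library).
-/

set_option autoImplicit false

open WeierstrassCurve

namespace Pool.Agent.H422.HE

theorem short_fg {K : Type} [Field K] [NumberField K] [DecidableEq K] {E : WeierstrassCurve K}
    (hE : Short E) {e1 e2 e3 : K} (h12 : e1 ≠ e2) (h13 : e1 ≠ e3) (h23 : e2 ≠ e3)
    (hf : ∀ x : K, ff E.a₄ E.a₆ x = (x - e1) * (x - e2) * (x - e3)) :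
    AddGroup.FG E.toAffine.Point := by
  have h0 := hf 0
  have h1 := hf 1
  have h2 := hf (-1)
  simp only [ff] at h0 h1 h2
  have k2 : e1 + e2 + e3 = 0 := by linear_combination (1 / 2 : K) * (h1 + h2) - h0
  have hEq : E = Pool.Agent.H437R2.Man.MW.crv (-e1) (-e2) (-e3) := by
    ext
    · simp [Pool.Agent.H437R2.Man.MW.crv, hE.a1]
    · simp only [Pool.Agent.H437R2.Man.MW.crv, hE.a2]
      linear_combination k2
    · simp [Pool.Agent.H437R2.Man.MW.crv, hE.a3]
    · simp only [Pool.Agent.H437R2.Man.MW.crv]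
      linear_combination (1 / 2 : K) * (h1 - h2)
    · simp only [Pool.Agent.H437R2.Man.MW.crv]
      linear_combination h0
  rw [hEq]
  exact Pool.Agent.H437R2.Man.MW.pt_fg (fun h => h12 (neg_injective h))
    (fun h => h13 (neg_injective h)) (fun h => h23 (neg_injective h))

/-- a finitely generated abelian group modulo three -/
theorem fg_three {G : Type*} [AddCommGroup G] (hG : AddGroup.FG G) :
    ∃ U : Finset G, ∀ P : G, ∃ u ∈ U, ∃ Q : G, P = u + (Q + Q + Q) := by
  classical
  have hfin : (nsmulAddMonoidHom (α := G) 3).range.FiniteIndex :=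
    AddSubgroup.finiteIndex_range_nsmulAddMonoidHom_of_fg G (by norm_num)
  have : Finite (G ⧸ (nsmulAddMonoidHom (α := G) 3).range) :=
    AddSubgroup.finiteIndex_iff_finite_quotient.mp hfin
  have := Fintype.ofFinite (G ⧸ (nsmulAddMonoidHom (α := G) 3).range)
  refine ⟨Finset.univ.image (fun q : G ⧸ (nsmulAddMonoidHom (α := G) 3).range => q.out), ?_⟩
  intro P
  refine ⟨(QuotientAddGroup.mk (s := (nsmulAddMonoidHom (α := G) 3).range) P).out,
    Finset.mem_image_of_mem _ (Finset.mem_univ _), ?_⟩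
  have h1 := QuotientAddGroup.out_eq' (QuotientAddGroup.mk (s := (nsmulAddMonoidHom (α := G) 3).range) P)
  rw [QuotientAddGroup.eq] at h1
  obtain ⟨Q, hQ⟩ := h1
  rw [nsmulAddMonoidHom_apply] at hQ
  refine ⟨Q, ?_⟩
  have h3 : Q + Q + Q = 3 • Q := by rw [show (3 : ℕ) = 2 + 1 from rfl, add_nsmul, two_nsmul, one_nsmul]
  rw [h3, hQ]
  abel

end Pool.Agent.H422.HE
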