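import Mathlib
import Pool.Agent.H422.HE.Val
import Pool.Graph.R_seed8.H437R2.Man.MWWeak

/-!
Selmer-type finiteness and extensions of number fields.
-/

set_option autoImplicit false

open IsDedekindDomain NumberField Polynomial

namespace Pool.Agent.H422.HE

section sel

variable {K : Type} [Field K] [NumberField K]

/-- finiteness of the classes modulo squares with square values outside `S` -/
theorem sel_sq (S : Set (HeightOneSpectrum (𝓞 K))) (hS : S.Finite) :
    ∃ T : Finset K, (∀ t ∈ T, t ≠ 0) ∧ ∀ a : K, a ≠ 0 →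
      (∀ v : HeightOneSpectrum (𝓞 K), v ∉ S → IsSquare (v.valuation K a)) →
      ∃ t ∈ T, ∃ b : K, b ≠ 0 ∧ a = t * b ^ 2 := by
  obtain ⟨T, hT0, hT⟩ := Pool.Agent.H437R2.Man.MW.sel_finite S hS
  refine ⟨T, hT0, fun a ha hv => ?_⟩
  obtain ⟨t, ht, b, hb, hab⟩ := hT (Units.mk0 a ha) (by
    intro v hvS
    obtain ⟨g, hg⟩ := hv v hvS
    have h1 := v.valuationOfNeZero_eq (K := K) (Units.mk0 a ha)
    rw [Units.val_mk0] at h1
    rw [hg] at h1
    have hg0 : g ≠ 0 := by
      rintro rfl
      rw [mul_zero] at hg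
      exact (Valuation.ne_zero_iff _).mpr ha hg
    obtain ⟨m, rfl⟩ := WithZero.ne_zero_iff_exists.mp hg0
    rw [← WithZero.coe_mul] at h1
    have h2 := WithZero.coe_injective h1
    rw [h2, toAdd_mul]
    exact ⟨_, rfl⟩)
  exact ⟨t, ht, b, hb, hab⟩

/-- a finite number of nonzero elements are units outside a finite set -/
lemma finite_unit (k : K) (hk : k ≠ 0) :
    {v : HeightOneSpectrum (𝓞 K) | v.valuation K k ≠ 1}.Finite :=
  Pool.Agent.H437R2.Man.MW.finite_val_ne_one k hk

lemma finite_int (k : K) :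
    {v : HeightOneSpectrum (𝓞 K) | ¬ v.valuation K k ≤ 1}.Finite := by
  by_cases hk : k = 0
  · subst hk
    simp
  · refine (finite_unit k hk).subset ?_
    intro v hv h
    exact hv h.le

lemma finite_intP (h : K[X]) :
    {v : HeightOneSpectrum (𝓞 K) | ¬ IntP (v.valuation K) h}.Finite := by
  refine ((Finset.range (h.natDegree + 1)).finite_toSet.biUnion
    (t := fun i => {v : HeightOneSpectrum (𝓞 K) | ¬ v.valuation K (h.coeff i) ≤ 1})
    (fun i _ => finite_int _)).subset ?_
  intro v hv
  simp only [Set.mem_setOf_eq, IntP, not_forall] at hv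
  obtain ⟨i, hi⟩ := hv
  simp only [Set.mem_iUnion]
  refine ⟨i, ?_, hi⟩
  rw [Finset.mem_coe, Finset.mem_range]
  by_contra hcon
  rw [coeff_eq_zero_of_natDegree_lt (by omega), map_zero] at hi
  exact hi zero_le_one

/-- simple roots of monic polynomials of odd degree -/
theorem root_sq_fin {h : K[X]} (hm : h.Monic) (hodd : Odd h.natDegree) {r : K}
    (hr : h.eval r = 0) (hr' : h.derivative.eval r ≠ 0) :
    {v : HeightOneSpectrum (𝓞 K) | ¬ ∀ x : K, IsSquare (v.valuation K (h.eval x)) →
      IsSquare (v.valuation K (x - r))}.Finite := by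
  set g := h /ₘ (X - C r) with hg
  have hfac : h = (X - C r) * g := (mul_divByMonic_eq_iff_isRoot.mpr hr).symm
  have hgr : g.eval r = h.derivative.eval r := by
    conv_rhs => rw [hfac]
    simp
  refine (((finite_intP h).union (finite_intP g)).union ((finite_int r).union
    (finite_unit _ hr'))).subset ?_
  intro v hv
  by_contra hcon
  simp only [Set.mem_union, Set.mem_setOf_eq, not_or, not_not] at hcon
  apply hv
  intro x hsq
  exact root_sq (v.valuation K) hcon.1.1 hcon.1.2 hm hodd hcon.2.1 hfac (by rw [hgr]; exact hcon.2.2)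
    hsq

end sel

/-- a splitting field is a number field -/
theorem exists_split (K : Type) [Field K] [NumberField K] (p : K[X]) :
    ∃ (L : Type) (_ : Field L) (_ : NumberField L) (φ : K →+* L), (p.map φ).Splits :=
  ⟨p.SplittingField, inferInstance, NumberField.of_module_finite K p.SplittingField,
    algebraMap K p.SplittingField, SplittingField.splits p⟩

/-- square roots of finitely many elements -/
theorem exists_sqrts (K : Type) [Field K] [NumberField K] (T : Finset K) :
    ∃ (L : Type) (_ : Field L) (_ : NumberField L) (φ : K →+* L), ∀ t ∈ T, IsSquare (φ t) := by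
  classical
  obtain ⟨L, i1, i2, φ, hφ⟩ := exists_split K (∏ t ∈ T, (X ^ 2 - C t))
  refine ⟨L, i1, i2, φ, fun t ht => ?_⟩
  have hne : (∏ t ∈ T, (X ^ 2 - C t : K[X])) ≠ 0 :=
    Finset.prod_ne_zero_iff.mpr fun t _ => (monic_X_pow_sub_C t two_ne_zero).ne_zero
  have h1 : ((X ^ 2 - C t : K[X]).map φ).Splits := by
    refine Splits.of_dvd hφ ?_ (Polynomial.map_dvd φ (Finset.dvd_prod_of_mem _ ht))
    rwa [Ne, Polynomial.map_eq_zero]
  have hdeg : ((X ^ 2 - C t : K[X]).map φ).degree ≠ 0 := by
    rw [degree_map, degree_X_pow_sub_C (by norm_num)]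
    norm_num
  obtain ⟨s, hs⟩ := h1.exists_eval_eq_zero hdeg
  refine ⟨s, ?_⟩
  have : s ^ 2 - φ t = 0 := by simpa using hs
  linear_combination -this

end Pool.Agent.H422.HE
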