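import Mathlib
import Pool.Agent.H422.HE.Div
import Pool.Agent.H422.HE.Mw
import Pool.Agent.H422.HE.Sel
import Pool.Agent.H422.HE.Loc

/-!
Points over extensions.
-/

set_option autoImplicit false

open WeierstrassCurve Polynomial WeierstrassCurve.Affine

namespace Pool.Agent.H422.HE

section

variable {K : Type} [Field K]

/-- the curve `y² = x³ + A x + B` -/
abbrev WW (A B : K) : WeierstrassCurve.Affine K := (⟨0, 0, 0, A, B⟩ : WeierstrassCurve K)

lemma short_bc (A B : K) (L : Type) [Field L] [Algebra K L] : Short ((WW A B)⁄L) := by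
  refine ⟨?_, ?_, ?_⟩ <;> simp [WeierstrassCurve.baseChange, WW]

lemma bc_a4 (A B : K) (L : Type) [Field L] [Algebra K L] : ((WW A B)⁄L).a₄ = algebraMap K L A := rfl
lemma bc_a6 (A B : K) (L : Type) [Field L] [Algebra K L] : ((WW A B)⁄L).a₆ = algebraMap K L B := rfl

lemma ff_map {L : Type} [Field L] (φ : K →+* L) (A B x : K) : ff (φ A) (φ B) (φ x) = φ (ff A B x) := by
  simp [ff]

lemma psi_map {L : Type} [Field L] (φ : K →+* L) (A B x : K) :
    psi (φ A) (φ B) (φ x) = φ (psi A B x) := by
  simp [psi, map_ofNat]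

lemma dsc_map {L : Type} [Field L] (φ : K →+* L) (A B : K) :
    dsc (φ A) (φ B) = φ (dsc A B) := by
  simp [dsc, map_ofNat]

lemma dsc_map_ne {L : Type} [Field L] (φ : K →+* L) {A B : K} (hd : dsc A B ≠ 0) :
    dsc (φ A) (φ B) ≠ 0 := by
  rw [dsc_map]
  exact (map_ne_zero φ).mpr hd

open Classical in
/-- a finite level containing given points and elements -/
theorem exists_level (A B : K) (R : Finset ((WW A B)⁄(AlgebraicClosure K)).Point)
    (s : Finset (AlgebraicClosure K)) :
    ∃ L : IntermediateField K (AlgebraicClosure K), FiniteDimensional K L ∧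
      (∀ P ∈ R, ∃ P' : ((WW A B)⁄L).Point, Point.map (W' := WW A B) L.val P' = P) ∧
      ∀ z ∈ s, z ∈ L := by
  let cs : ((WW A B)⁄(AlgebraicClosure K)).Point → Finset (AlgebraicClosure K) := fun P =>
    match P with
    | 0 => ∅
    | .some x y _ => {x, y}
  let T : Finset (AlgebraicClosure K) := s ∪ R.biUnion cs
  refine ⟨IntermediateField.adjoin K (T : Set (AlgebraicClosure K)), ?_, ?_, ?_⟩
  · exact IntermediateField.finiteDimensional_adjoin fun x _ => Algebra.IsIntegral.isIntegral x
  · intro P hP
    match P, hP with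
    | 0, _ => exact ⟨0, rfl⟩
    | .some x y h, hP =>
      have hx : x ∈ IntermediateField.adjoin K (T : Set (AlgebraicClosure K)) := by
        apply IntermediateField.subset_adjoin
        rw [Finset.mem_coe, Finset.mem_union, Finset.mem_biUnion]
        exact Or.inr ⟨_, hP, by simp [cs]⟩
      have hy : y ∈ IntermediateField.adjoin K (T : Set (AlgebraicClosure K)) := by
        apply IntermediateField.subset_adjoin
        rw [Finset.mem_coe, Finset.mem_union, Finset.mem_biUnion]
        exact Or.inr ⟨_, hP, by simp [cs]⟩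
      set L := IntermediateField.adjoin K (T : Set (AlgebraicClosure K)) with hL
      have h' : ((WW A B)⁄L).Nonsingular (⟨x, hx⟩ : L) (⟨y, hy⟩ : L) :=
        (baseChange_nonsingular (W := WW A B) (f := L.val) L.val.injective _ _).mp h
      exact ⟨Point.some _ _ h', rfl⟩
  · intro z hz
    apply IntermediateField.subset_adjoin
    rw [Finset.mem_coe, Finset.mem_union]
    exact Or.inl hz

end

end Pool.Agent.H422.HE
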