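import Mathlib
import Pool.Agent.H422.HE.Lev

/-!
One root of the third division polynomial.
-/

set_option autoImplicit false

open WeierstrassCurve Polynomial WeierstrassCurve.Affine IsDedekindDomain NumberField

namespace Pool.Agent.H422.HE

lemma map_isSquare {K : Type*} [Field K] {Γ : Type*} [LinearOrderedCommGroupWithZero Γ]
    (v : Valuation K Γ) {x : K} (h : IsSquare x) : IsSquare (v x) := by
  obtain ⟨y, rfl⟩ := h
  exact ⟨v y, map_mul _ _ _⟩

theorem one_root {L : Type} [Field L] [NumberField L] [DecidableEq L] {E : WeierstrassCurve.Affine L}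
    (hE : Short E) (hd : dsc E.a₄ E.a₆ ≠ 0) {x2 y2 q w t τ : L} (hr : E.Nonsingular x2 y2)
    (hq : E.Nonsingular q w) (hw : w ≠ 0)
    (h3 : Point.some x2 y2 hr + Point.some x2 y2 hr + Point.some x2 y2 hr = Point.some q w hq)
    (ht : psi E.a₄ E.a₆ t = 0) (hτ : τ ^ 2 = ff E.a₄ E.a₆ t) :
    {v : HeightOneSpectrum (𝓞 L) | ¬ ∀ (R : E.Point) (x y : L) (h : E.Nonsingular x y),
      R + R + R = Point.some x y h → x ≠ q → IsSquare (x - q) →
      ∃ (X Y : L) (h' : E.Nonsingular X Y), R - Point.some x2 y2 hr = Point.some X Y h' ∧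
        X ≠ t ∧ IsSquare (v.valuation L (X - t))}.Finite := by
  have hT : E.Nonsingular t τ := nonsing hE hd hτ
  obtain ⟨p2, k2, w2⟩ := of_triple hE hd hr hq h3
  have hy2 : y2 ≠ 0 := by
    rintro rfl
    rw [zero_mul] at w2
    exact mul_ne_zero hw (pow_ne_zero _ p2) w2.symm
  have hx2t : x2 ≠ t := by rintro rfl; exact p2 ht
  have hT3 := triple_zero hE hT ht hd
  obtain ⟨ρ, η, σ, θ, hρ, hσ, e1, e2, eG, -⟩ := GG_sum hE hr hT hx2t
  have t1 : Point.some ρ η hρ + Point.some ρ η hρ + Point.some ρ η hρ = Point.some q w hq := by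
    rw [← e1, ← h3]
    calc _ = (Point.some x2 y2 hr + Point.some x2 y2 hr + Point.some x2 y2 hr) +
          (Point.some t τ hT + Point.some t τ hT + Point.some t τ hT) := by abel
      _ = _ := by rw [hT3, add_zero]
  have t2 : Point.some σ θ hσ + Point.some σ θ hσ + Point.some σ θ hσ = Point.some q w hq := by
    rw [← e2, ← h3]
    calc _ = (Point.some x2 y2 hr + Point.some x2 y2 hr + Point.some x2 y2 hr) -
          (Point.some t τ hT + Point.some t τ hT + Point.some t τ hT) := by abel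
      _ = _ := by rw [hT3, sub_zero]
  obtain ⟨r1, r1'⟩ := deriv_ne hE hd hρ hq hw t1
  obtain ⟨r2, r2'⟩ := deriv_ne hE hd hσ hq hw t2
  have hη : η ≠ 0 := by
    obtain ⟨p, -, w3⟩ := of_triple hE hd hρ hq t1
    rintro rfl
    rw [zero_mul] at w3
    exact mul_ne_zero hw (pow_ne_zero _ p) w3.symm
  have hθ : θ ≠ 0 := by
    obtain ⟨p, -, w3⟩ := of_triple hE hd hσ hq t2
    rintro rfl
    rw [zero_mul] at w3
    exact mul_ne_zero hw (pow_ne_zero _ p) w3.symm
  have hfρ : ff E.a₄ E.a₆ ρ ≠ 0 := by rw [← (eqn hE).mp hρ.1]; exact pow_ne_zero _ hη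
  have hfσ : ff E.a₄ E.a₆ σ ≠ 0 := by rw [← (eqn hE).mp hσ.1]; exact pow_ne_zero _ hθ
  have odd9 : Odd (hP E.a₄ E.a₆ q).natDegree := by rw [hP_natDegree]; decide
  refine (((((((root_sq_fin (hP_monic _ _ _) odd9 r1 r1').union
    (root_sq_fin (hP_monic _ _ _) odd9 r2 r2')).union
    ((finite_int E.a₄).union (finite_int E.a₆))).union
    ((finite_int x2).union (finite_int t))).union
    ((finite_int ρ).union (finite_int σ))).union
    ((finite_unit (2 : L) two_ne_zero).union (finite_unit y2 hy2))).union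
    ((finite_unit (x2 - t) (sub_ne_zero.mpr hx2t)).union
      ((finite_unit _ hfρ).union (finite_unit _ hfσ)))).subset ?_
  intro v hv
  by_contra hcon
  simp only [Set.mem_union, Set.mem_ofPred_eq, not_or, not_not] at hcon
  obtain ⟨⟨⟨⟨⟨⟨c1, c2⟩, c3, c4⟩, c5, c6⟩, c7, c8⟩, c9, c10⟩, c11, c12, c13⟩ := hcon
  apply hv
  intro R x y h hR hxq hsq
  have hR0 : R ≠ 0 := by
    rintro rfl
    rw [add_zero, add_zero] at hR
    exact Point.some_ne_zero _ hR.symm
  match R, hR0, hR with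
  | .some x1 y1 h1, _, hR =>
    obtain ⟨p1, k1, -⟩ := of_triple hE hd h1 h hR
    have hev : (hP E.a₄ E.a₆ q).eval x1 = (x - q) * psi E.a₄ E.a₆ x1 ^ 2 := by
      rw [hP_eval, k1]; ring
    have hev0 : (hP E.a₄ E.a₆ q).eval x1 ≠ 0 := by
      rw [hev]; exact mul_ne_zero (sub_ne_zero.mpr hxq) (pow_ne_zero _ p1)
    have hevsq : IsSquare (v.valuation L ((hP E.a₄ E.a₆ q).eval x1)) := by
      apply map_isSquare
      rw [hev]
      exact hsq.mul ⟨_, sq _⟩
    have hx12 : x1 ≠ x2 := by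
      rintro rfl
      apply hev0
      rw [hP_eval, k2, sub_self]
    have hx1ρ : x1 ≠ ρ := by rintro rfl; exact hev0 r1
    have hx1σ : x1 ≠ σ := by rintro rfl; exact hev0 r2
    obtain ⟨a, ya, b, yb, ha, hb, f1, f2, fG, fD⟩ := GG_sum hE h1 hr hx12
    have hGG : (x1 - x2) ^ 2 * ((t - a) * (t - b)) = (x2 - t) ^ 2 * ((x1 - ρ) * (x1 - σ)) := by
      rw [fG, eG, GG_symm]
    have hbt : b ≠ t := by
      rintro rfl
      rw [sub_self, mul_zero, mul_zero] at hGG
      exact mul_ne_zero (pow_ne_zero _ (sub_ne_zero.mpr hx2t))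
        (mul_ne_zero (sub_ne_zero.mpr hx1ρ) (sub_ne_zero.mpr hx1σ)) hGG.symm
    refine ⟨b, yb, hb, f2, hbt, ?_⟩
    exact local_step (v.valuation L) c3 c4 c9 c5 c6 c7 c8 c10 c11 c12 c13
      ((eqn hE).mp h1.1) ((eqn hE).mp ha.1) ((eqn hE).mp hb.1) hx12 hx1ρ hx1σ hGG fD
      (c1 x1 hevsq) (c2 x1 hevsq)

end Pool.Agent.H422.HE
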