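import Mathlib
import Pool.Agent.H422.HE.One

/-!
The descent step.
-/

set_option autoImplicit false

open WeierstrassCurve Polynomial WeierstrassCurve.Affine IsDedekindDomain NumberField

namespace Pool.Agent.H422.HE

section psiP
variable {F : Type*} [Field F]

/-- the third division polynomial -/
noncomputable def psiP (A B : F) : F[X] :=
  C 3 * X ^ 4 + C (6 * A) * X ^ 2 + C (12 * B) * X - C (A ^ 2)

lemma psiP_eval (A B x : F) : (psiP A B).eval x = psi A B x := by
  simp [psiP, psi]

lemma psiP_map {L : Type*} [Field L] (φ : F →+* L) (A B : F) :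
    (psiP A B).map φ = psiP (φ A) (φ B) := by
  simp [psiP, Polynomial.map_sub, map_ofNat]

lemma psiP_ne [CharZero F] (A B : F) : psiP A B ≠ 0 := by
  intro h
  have h1 : (psiP A B).natDegree = 4 := by
    unfold psiP
    compute_degree!
  rw [h, natDegree_zero] at h1
  norm_num at h1

end psiP

/-- the abscissa -/
def xc {F : Type*} [Field F] {E : WeierstrassCurve.Affine F} : E.Point → F
  | 0 => 0
  | .some x _ _ => x

lemma finite_xc {F : Type*} [Field F] {E : WeierstrassCurve.Affine F} {s : Set F} (hs : s.Finite) :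
    {P : E.Point | ∃ (X Y : F) (h : E.Nonsingular X Y), P = Point.some X Y h ∧ X ∈ s}.Finite := by
  refine (hs.biUnion (t := fun X => {P : E.Point | ∃ (Y : F) (h : E.Nonsingular X Y),
    P = Point.some X Y h}) ?_).subset ?_
  · intro X _
    rcases Set.eq_empty_or_nonempty {P : E.Point | ∃ (Y : F) (h : E.Nonsingular X Y),
      P = Point.some X Y h} with h0 | ⟨P, Y, h, hP⟩
    · rw [h0]; exact Set.finite_empty
    · refine (Set.Finite.insert P (Set.finite_singleton (-P))).subset ?_
      rintro Q ⟨Y', h', rfl⟩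
      rw [hP]
      exact Point.X_eq_iff.mp rfl
  · rintro P ⟨X, Y, h, hP, hX⟩
    simp only [Set.mem_iUnion]
    exact ⟨X, hX, Y, h, hP⟩

lemma dsc_ne {K : Type} [Field K] [CharZero K] {A B e1 e2 e3 : K} (h12 : e1 ≠ e2) (h13 : e1 ≠ e3)
    (h23 : e2 ≠ e3) (hf : ∀ x, ff A B x = (x - e1) * (x - e2) * (x - e3)) : dsc A B ≠ 0 := by
  have h0 := hf 0
  have h1 := hf 1
  have h2 := hf (-1)
  simp only [ff] at h0 h1 h2
  have k2 : e1 + e2 + e3 = 0 := by linear_combination (1 / 2 : K) * (h1 + h2) - h0
  have kA : A = e1 * e2 + e1 * e3 + e2 * e3 := by linear_combination (1 / 2 : K) * (h1 - h2)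
  have kB : B = - (e1 * e2 * e3) := by linear_combination h0
  have he3 : e3 = -e1 - e2 := by linear_combination k2
  have : dsc A B = -((e1 - e2) * (e1 - e3) * (e2 - e3)) ^ 2 := by
    rw [kA, kB, dsc, he3]; ring
  rw [this]
  exact neg_ne_zero.mpr (pow_ne_zero _ (mul_ne_zero (mul_ne_zero (sub_ne_zero.mpr h12)
    (sub_ne_zero.mpr h13)) (sub_ne_zero.mpr h23)))

theorem propA {K : Type} [Field K] [NumberField K] {A B e1 e2 e3 : K} (h12 : e1 ≠ e2)
    (h13 : e1 ≠ e3) (h23 : e2 ≠ e3) (hf : ∀ x, ff A B x = (x - e1) * (x - e2) * (x - e3))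
    {q w : K} (hw : w ^ 2 = ff A B q) (hw0 : w ≠ 0)
    (H : ∀ (L : Type) [Field L] [NumberField L] (φ : K →+* L), (psiP (φ A) (φ B)).Splits →
      {X : L | (∃ Y, Y ^ 2 = ff (φ A) (φ B) X) ∧
        ∀ t, psi (φ A) (φ B) t = 0 → X ≠ t ∧ IsSquare (X - t)}.Finite) :
    {x : K | x ≠ q ∧ (∃ y, y ^ 2 = ff A B x) ∧ IsSquare (x - q)}.Finite := by
  classical
  have hd := dsc_ne h12 h13 h23 hf
  set W := WW A B with hWdef
  have hEK : Short (W⁄K) := short_bc A B K
  have hFG : AddGroup.FG (W⁄K).Point := short_fg (E := W⁄K) hEK h12 h13 h23 hf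
  obtain ⟨U, hU⟩ := fg_three hFG
  have hp : (W⁄K).Nonsingular q w := nonsing hEK hd hw
  -- division over the algebraic closure
  have hEΩ : Short (W⁄(AlgebraicClosure K)) := short_bc A B _
  have hdΩ : dsc (W⁄(AlgebraicClosure K)).a₄ (W⁄(AlgebraicClosure K)).a₆ ≠ 0 :=
    dsc_map_ne (algebraMap K (AlgebraicClosure K)) hd
  have hdiv : ∀ P : (W⁄K).Point, ∃ R : (W⁄(AlgebraicClosure K)).Point,
      R + R + R = Point.map (W' := W) (Algebra.ofId K (AlgebraicClosure K)) P :=
    fun P => div3 hEΩ hdΩ _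
  choose D hD using hdiv
  have hsq : ∀ t : AlgebraicClosure K, ∃ τ : AlgebraicClosure K,
      τ ^ 2 = ff (W⁄(AlgebraicClosure K)).a₄ (W⁄(AlgebraicClosure K)).a₆ t :=
    fun t => IsAlgClosed.exists_pow_nat_eq _ (by norm_num)
  choose τ hτ using hsq
  set rt : Finset (AlgebraicClosure K) :=
    (psiP (algebraMap K (AlgebraicClosure K) A) (algebraMap K (AlgebraicClosure K) B)).roots.toFinset
    with hrt
  obtain ⟨L, hLfin, hL1, hL2⟩ := exists_level A B (insert (D (Point.some q w hp)) (U.image D))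
    (rt ∪ rt.image τ)
  have : NumberField L := NumberField.of_module_finite K L
  have hEL : Short (W⁄L) := short_bc A B L
  have hdL : dsc (W⁄L).a₄ (W⁄L).a₆ ≠ 0 := dsc_map_ne (algebraMap K L) hd
  -- division over `L`
  have hdivL : ∀ P ∈ insert (Point.some q w hp) U, ∃ R : (W⁄L).Point,
      R + R + R = Point.map (W' := W) (Algebra.ofId K L) P := by
    intro P hP
    obtain ⟨R, hR⟩ := hL1 (D P) (by
      rw [Finset.mem_insert] at hP ⊢
      rcases hP with rfl | hP
      · exact Or.inl rfl
      · exact Or.inr (Finset.mem_image_of_mem _ hP))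
    refine ⟨R, ?_⟩
    apply Point.map_injective (W' := W) (f := L.val)
    rw [_root_.map_add, _root_.map_add, hR, hD, Point.map_map]
    rfl
  -- splitting
  have hsplit : (psiP (algebraMap K L A) (algebraMap K L B)).Splits := by
    apply Splits.of_splits_map (algebraMap L (AlgebraicClosure K))
      (IsAlgClosed.splits _)
    intro a ha
    rw [psiP_map] at ha
    have : a ∈ L := by
      apply hL2
      rw [Finset.mem_union]
      left
      rw [hrt, Multiset.mem_toFinset]
      exact ha
    exact ⟨⟨a, this⟩, rfl⟩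
  have hroot : ∀ t : L, psi (algebraMap K L A) (algebraMap K L B) t = 0 →
      ∃ s : L, s ^ 2 = ff (algebraMap K L A) (algebraMap K L B) t := by
    intro t ht
    have h1 : (t : AlgebraicClosure K) ∈ rt := by
      rw [hrt, Multiset.mem_toFinset, mem_roots (psiP_ne _ _), IsRoot.def, psiP_eval]
      have := psi_map (algebraMap L (AlgebraicClosure K)) (algebraMap K L A) (algebraMap K L B) t
      rw [ht, RingHom.map_zero] at this
      exact this
    have h2 : τ (t : AlgebraicClosure K) ∈ L := by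
      apply hL2
      rw [Finset.mem_union]
      right
      exact Finset.mem_image_of_mem _ h1
    refine ⟨⟨_, h2⟩, ?_⟩
    apply (algebraMap L (AlgebraicClosure K)).injective
    rw [RingHom.map_pow]
    exact (hτ t).trans (ff_map (algebraMap L (AlgebraicClosure K)) (algebraMap K L A)
      (algebraMap K L B) t)
  -- the point `r`
  obtain ⟨r, hr⟩ := hdivL _ (Finset.mem_insert_self _ _)
  have hqL : (W⁄L).Nonsingular (algebraMap K L q) (algebraMap K L w) :=
    (baseChange_nonsingular (W := W) (f := Algebra.ofId K L) (algebraMap K L).injective _ _).mpr hp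
  have hr' : r + r + r = Point.some _ _ hqL := hr
  have hwL : algebraMap K L w ≠ 0 := (_root_.map_ne_zero _).mpr hw0
  have hr0 : r ≠ 0 := by
    rintro rfl
    rw [add_zero, add_zero] at hr'
    exact Point.some_ne_zero _ hr'.symm
  obtain ⟨x2, y2, hr2, rfl⟩ : ∃ (x2 y2 : L) (h : (W⁄L).Nonsingular x2 y2), r = Point.some x2 y2 h := by
    match r, hr0 with
    | .some x2 y2 h, _ => exact ⟨x2, y2, h, rfl⟩
  -- the places
  set S : Set (HeightOneSpectrum (𝓞 L)) := ⋃ t ∈ {t : L | psi (algebraMap K L A) (algebraMap K L B) t = 0},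
    {v : HeightOneSpectrum (𝓞 L) | ¬ ∀ (R : (W⁄L).Point) (x y : L) (h : (W⁄L).Nonsingular x y),
      R + R + R = Point.some x y h → x ≠ algebraMap K L q → IsSquare (x - algebraMap K L q) →
      ∃ (X Y : L) (h' : (W⁄L).Nonsingular X Y), R - Point.some x2 y2 hr2 = Point.some X Y h' ∧
        X ≠ t ∧ IsSquare (v.valuation L (X - t))} with hS
  have hSfin : S.Finite := by
    rw [hS]
    refine Set.Finite.biUnion ?_ ?_
    · refine ((psiP (algebraMap K L A) (algebraMap K L B)).roots.toFinset.finite_toSet).subset ?_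
      intro t ht
      rw [Finset.mem_coe, Multiset.mem_toFinset, mem_roots (psiP_ne _ _), IsRoot.def, psiP_eval]
      exact ht
    · intro t ht
      obtain ⟨s, hs⟩ := hroot t ht
      exact one_root hEL hdL hr2 hqL hwL hr' ht hs
  obtain ⟨T, hT0, hT⟩ := sel_sq S hSfin
  obtain ⟨L', _, _, φ', hφ'⟩ := exists_sqrts L T
  have hfin := H L' (φ'.comp (algebraMap K L)) (by
    have := hsplit.map φ'
    rwa [psiP_map] at this)
  have hX := hfin.preimage (f := φ') φ'.injective.injOn
  have hP := finite_xc (E := W⁄L) hX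
  refine ((hP.image (fun P => xc (P + P + P + Point.some _ _ hqL))).preimage
    (f := algebraMap K L) (algebraMap K L).injective.injOn).subset ?_
  rintro x ⟨hxq, ⟨y, hy⟩, hsx⟩
  have hns : (W⁄K).Nonsingular x y := nonsing hEK hd hy
  obtain ⟨u, hu, Q, hQ⟩ := hU (Point.some x y hns)
  obtain ⟨u', hu'⟩ := hdivL u (Finset.mem_insert_of_mem hu)
  set R := u' + Point.map (W' := W) (Algebra.ofId K L) Q with hR
  have hnsL : (W⁄L).Nonsingular (algebraMap K L x) (algebraMap K L y) :=
    (baseChange_nonsingular (W := W) (f := Algebra.ofId K L) (algebraMap K L).injective _ _).mpr hns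
  have hR3 : R + R + R = Point.some _ _ hnsL := by
    have h1 : Point.map (W' := W) (Algebra.ofId K L) (Point.some x y hns) = Point.some _ _ hnsL := rfl
    rw [← h1, hQ, _root_.map_add, _root_.map_add, _root_.map_add, ← hu', hR]
    abel
  have hxq' : algebraMap K L x ≠ algebraMap K L q := fun h => hxq ((algebraMap K L).injective h)
  have hsx' : IsSquare (algebraMap K L x - algebraMap K L q) := by
    rw [← RingHom.map_sub]; exact hsx.map _
  -- the point `P'`
  have hall : ∀ t : L, psi (algebraMap K L A) (algebraMap K L B) t = 0 → ∀ v ∉ S,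
      ∃ (X Y : L) (h' : (W⁄L).Nonsingular X Y), R - Point.some x2 y2 hr2 = Point.some X Y h' ∧
        X ≠ t ∧ IsSquare (v.valuation L (X - t)) := by
    intro t ht v hv
    by_contra hcon
    apply hv
    rw [hS]
    simp only [Set.mem_iUnion]
    refine ⟨t, ht, fun hall => hcon (hall R _ _ hnsL hR3 hxq' hsx')⟩
  have hne : R + R + R ≠ Point.some x2 y2 hr2 + Point.some x2 y2 hr2 + Point.some x2 y2 hr2 := by
    rw [hR3, hr']
    intro h
    simp only [Point.some.injEq] at h
    exact hxq' h.1
  have hP'3 : (R - Point.some x2 y2 hr2) + (R - Point.some x2 y2 hr2) + (R - Point.some x2 y2 hr2) ≠ 0 := by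
    intro h
    apply hne
    rw [← sub_eq_zero, ← h]
    abel
  have hP'0 : R - Point.some x2 y2 hr2 ≠ 0 := by
    intro h
    rw [h, add_zero, add_zero] at hP'3
    exact hP'3 rfl
  obtain ⟨X, Y, hXY, hPe⟩ : ∃ (X Y : L) (h : (W⁄L).Nonsingular X Y),
      R - Point.some x2 y2 hr2 = Point.some X Y h := by
    match hm : R - Point.some x2 y2 hr2, hP'0 with
    | .some X Y h, _ => exact ⟨X, Y, h, rfl⟩
  have hXpsi : psi (algebraMap K L A) (algebraMap K L B) X ≠ 0 := by
    intro h
    apply hP'3
    rw [hPe]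
    exact triple_zero hEL hXY h hdL
  have hXt : ∀ t : L, psi (algebraMap K L A) (algebraMap K L B) t = 0 →
      X ≠ t ∧ IsSquare (φ' (X - t)) := by
    intro t ht
    have hXt0 : X ≠ t := by rintro rfl; exact hXpsi ht
    refine ⟨hXt0, ?_⟩
    obtain ⟨t0, ht0, b, -, hb⟩ := hT (X - t) (sub_ne_zero.mpr hXt0) (by
      intro v hv
      obtain ⟨X', Y', h', e', -, hs'⟩ := hall t ht v hv
      rw [hPe] at e'
      simp only [Point.some.injEq] at e'
      rw [← e'.1] at hs'
      exact hs')
    rw [hb, RingHom.map_mul, RingHom.map_pow]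
    exact (hφ' t0 ht0).mul ⟨_, sq _⟩
  refine ⟨Point.some X Y hXY, ⟨X, Y, hXY, rfl, ?_⟩, ?_⟩
  · rw [Set.mem_preimage]
    refine ⟨⟨φ' Y, ?_⟩, ?_⟩
    · have h1 := (eqn hEL).mp hXY.1
      have h2 := ff_map φ' (algebraMap K L A) (algebraMap K L B) X
      rw [RingHom.comp_apply, RingHom.comp_apply, h2, ← RingHom.map_pow]
      exact congrArg φ' h1
    · intro t' ht'
      rw [RingHom.comp_apply, RingHom.comp_apply] at ht'
      have h1 : t' ∈ ((psiP (algebraMap K L A) (algebraMap K L B)).map φ').roots := by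
        rw [psiP_map, mem_roots (psiP_ne _ _), IsRoot.def, psiP_eval]
        exact ht'
      rw [hsplit.roots_map, Multiset.mem_map] at h1
      obtain ⟨t, ht, rfl⟩ := h1
      rw [mem_roots (psiP_ne _ _), IsRoot.def, psiP_eval] at ht
      obtain ⟨h2, h3⟩ := hXt t ht
      refine ⟨fun h => h2 (φ'.injective h), ?_⟩
      rw [← RingHom.map_sub]
      exact h3
  · have h1 : Point.some X Y hXY + Point.some X Y hXY + Point.some X Y hXY + Point.some _ _ hqL =
        Point.some _ _ hnsL := by
      rw [← hPe, ← hr', ← hR3]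
      abel
    simp only [h1]
    rfl

end Pool.Agent.H422.HE
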