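import Mathlib
import Pool.Agent.H422.HE.PropA
import Pool.Graph.R_seed8.H437R2.Man.Mord

/-!
Four square classes.
-/

set_option autoImplicit false

open Polynomial

namespace Pool.Agent.H422.HE

/-- genus two curves over `w² = u³ + 1` -/
theorem two (K : Type) [Field K] [NumberField K] (q : K) (hq : q ^ 3 + 1 ≠ 0) :
    {x : K | (∃ y : K, y ^ 2 = x ^ 3 + 1) ∧ IsSquare (x - q)}.Finite := by
  classical
  obtain ⟨L, _, _, φ, hφ⟩ := exists_split K ((X ^ 2 - X + 1) * (X ^ 2 - C (q ^ 3 + 1)))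
  have hne : (X ^ 2 - X + 1 : K[X]) ≠ 0 := by
    intro h
    have h1 : (X ^ 2 - X + 1 : K[X]).eval 0 = 0 := by rw [h, eval_zero]
    simp at h1
  have hne2 : (X ^ 2 - C (q ^ 3 + 1) : K[X]) ≠ 0 := (monic_X_pow_sub_C _ two_ne_zero).ne_zero
  have hne3 : ((X ^ 2 - X + 1) * (X ^ 2 - C (q ^ 3 + 1)) : K[X]).map φ ≠ 0 := by
    rw [Ne, Polynomial.map_eq_zero]; exact mul_ne_zero hne hne2
  have s1 : ((X ^ 2 - X + 1 : K[X]).map φ).Splits :=
    Splits.of_dvd hφ hne3 (Polynomial.map_dvd φ (dvd_mul_right _ _))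
  have s2 : ((X ^ 2 - C (q ^ 3 + 1) : K[X]).map φ).Splits :=
    Splits.of_dvd hφ hne3 (Polynomial.map_dvd φ (dvd_mul_left _ _))
  obtain ⟨ζ, hζ⟩ := s1.exists_eval_eq_zero (by
    rw [degree_map]
    have : (X ^ 2 - X + 1 : K[X]).degree = 2 := by compute_degree!
    rw [this]; norm_num)
  obtain ⟨w, hw⟩ := s2.exists_eval_eq_zero (by
    rw [degree_map, degree_X_pow_sub_C (by norm_num)]; norm_num)
  have hζ' : ζ ^ 2 - ζ + 1 = 0 := by simpa using hζ
  have hw' : w ^ 2 = (φ q) ^ 3 + 1 := by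
    have : w ^ 2 - ((φ q) ^ 3 + 1) = 0 := by simpa using hw
    linear_combination this
  have hw0 : w ≠ 0 := by
    rintro rfl
    apply hq
    apply φ.injective
    rw [map_zero, map_add, map_pow, map_one, ← hw']
    ring
  have hfin := propA (A := (0 : L)) (B := 1) (e1 := -1) (e2 := ζ) (e3 := 1 - ζ) (q := φ q) (w := w)
    (by
      rintro rfl
      have h3 : (3 : L) = 0 := by linear_combination hζ'
      norm_num at h3)
    (by
      intro h
      have h2 : ζ = 2 := by linear_combination h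
      rw [h2] at hζ'
      norm_num at hζ')
    (by
      intro h
      have h2 : 2 * ζ = 1 := by linear_combination h
      have h3 : (3 : L) = 0 := by linear_combination 4 * hζ' - (2 * ζ - 1) * h2
      norm_num at h3)
    (by
      intro x
      simp only [ff]
      linear_combination (x + 1) * hζ')
    (by simp only [ff]; linear_combination hw') hw0 (by
      intro L' _ _ φ' _
      refine ((Pool.Agent.H437R2.Man.mordell L').image (fun s => s ^ 2)).subset ?_
      rintro X ⟨⟨Y, hY⟩, ht⟩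
      obtain ⟨-, s, hs⟩ := ht 0 (by simp [psi])
      refine ⟨s, ⟨Y, ?_⟩, ?_⟩
      · rw [hY]
        simp only [ff, map_zero, map_one]
        have : X = s * s := by rw [← hs, sub_zero]
        rw [this]; ring
      · simp only
        rw [sq, ← hs, sub_zero])
  refine ((hfin.preimage (f := φ) φ.injective.injOn).union (Set.finite_singleton q)).subset ?_
  rintro x ⟨⟨y, hy⟩, hs⟩
  by_cases hxq : x = q
  · right; exact hxq
  · left
    refine ⟨fun h => hxq (φ.injective h), ⟨φ y, ?_⟩, ?_⟩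
    · simp only [ff]
      rw [← map_pow, hy]
      simp
    · rw [← map_sub]; exact hs.map φ

lemma c_ne {F : Type*} [Field F] [CharZero F] {A B e : F} (hd : dsc A B ≠ 0)
    (he : psi A B e = 0) : 1 - 4 * ff A B e * (ff' A e / (6 * ff A B e)) ^ 3 ≠ 0 := by
  have hf := ff_ne_of_psi hd he
  intro h
  have h1 : ff' A e ^ 3 = 54 * ff A B e ^ 2 := by
    field_simp at h
    linear_combination (-1 / 4 : F) * h
  have h2 : ff' A e ^ 2 = 12 * e * ff A B e := by rw [psi_eq] at he; linear_combination -he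
  have h3 : 2 * e * ff' A e = 9 * ff A B e := by
    have h4 : ff A B e * (2 * e * ff' A e - 9 * ff A B e) = 0 := by
      linear_combination (1 / 6 : F) * (h1 - ff' A e * h2)
    rcases mul_eq_zero.mp h4 with h5 | h5
    · exact absurd h5 hf
    · linear_combination h5
  have hB : 9 * B = -3 * e ^ 3 - 7 * A * e := by
    simp only [ff, ff'] at h3
    linear_combination -h3
  have h5 : (3 * e ^ 2 + A) * (e ^ 2 + 3 * A) = 0 := by
    simp only [psi] at he
    linear_combination -3 * he + 4 * e * hB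
  rcases mul_eq_zero.mp h5 with h6 | h6
  · have h7 : 12 * e * ff A B e = 0 := by
      rw [← h2]; simp only [ff']; rw [h6]; ring
    have h8 : e = 0 := by
      rcases mul_eq_zero.mp h7 with h9 | h9
      · rcases mul_eq_zero.mp h9 with h10 | h10
        · norm_num at h10
        · exact h10
      · exact absurd h9 hf
    subst h8
    have hA : A = 0 := by linear_combination h6
    have hB' : B = 0 := by linear_combination (1 / 9 : F) * hB
    apply hd
    rw [dsc, hA, hB']; ring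
  · apply hd
    have hA : A = -e ^ 2 / 3 := by linear_combination (1 / 3 : F) * h6
    have hB' : B = -2 * e ^ 3 / 27 := by
      have : B = (-3 * e ^ 3 - 7 * A * e) / 9 := by linear_combination (1 / 9 : F) * hB
      rw [this, hA]; ring
    rw [dsc, hA, hB']; ring

/-- product of squares -/
lemma isSquare_prod {F : Type*} [Field F] (s : Multiset F) (h : ∀ a ∈ s, IsSquare a) :
    IsSquare s.prod := by
  induction s using Multiset.induction_on with
  | empty => simp
  | cons a s ih =>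
    rw [Multiset.prod_cons]
    exact (h a (Multiset.mem_cons_self _ _)).mul (ih fun b hb => h b (Multiset.mem_cons_of_mem hb))

/-- the hypothesis of `propA` for general curves -/
theorem hyp (L : Type) [Field L] [NumberField L] {A B : L} (hd : dsc A B ≠ 0)
    (hs : (psiP A B).Splits) :
    {X : L | (∃ Y, Y ^ 2 = ff A B X) ∧ ∀ t, psi A B t = 0 → X ≠ t ∧ IsSquare (X - t)}.Finite := by
  classical
  have hdeg : (psiP A B).natDegree = 4 := by unfold psiP; compute_degree!
  have hlead : (psiP A B).leadingCoeff = 3 := by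
    rw [leadingCoeff, hdeg]
    unfold psiP
    compute_degree!
  obtain ⟨e, he⟩ := hs.exists_eval_eq_zero (by
    rw [degree_eq_natDegree (psiP_ne _ _), hdeg]; norm_num)
  rw [psiP_eval] at he
  have hf := ff_ne_of_psi hd he
  have hc := c_ne hd he
  set f := ff A B e with hfdef
  set a := ff' A e / (6 * f) with ha
  set c := 1 - 4 * f * a ^ 3 with hcdef
  -- the extension
  obtain ⟨M, _, _, φ, hφ⟩ := exists_split L (X ^ 3 - C (4 * f / c))
  obtain ⟨κ, hκ⟩ := hφ.exists_eval_eq_zero (by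
    rw [degree_map, degree_X_pow_sub_C (by norm_num)]; norm_num)
  have hκ' : κ ^ 3 = φ (4 * f / c) := by
    have : κ ^ 3 - φ (4 * f / c) = 0 := by simpa using hκ
    linear_combination this
  have hκ0 : κ ≠ 0 := by
    rintro rfl
    have : φ (4 * f / c) = 0 := by rw [← hκ']; ring
    rw [map_eq_zero] at this
    exact div_ne_zero (mul_ne_zero (by norm_num) hf) hc this
  obtain ⟨N, _, _, ψ, hψ⟩ := exists_sqrts M {φ c, κ}
  obtain ⟨γ, hγ⟩ := hψ (φ c) (by simp)
  obtain ⟨μ, hμ⟩ := hψ κ (by simp)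
  have hκN : ψ κ ≠ 0 := (_root_.map_ne_zero ψ).mpr hκ0
  have hcN : ψ (φ c) ≠ 0 := (_root_.map_ne_zero ψ).mpr ((_root_.map_ne_zero φ).mpr hc)
  have hγ0 : γ ≠ 0 := by rintro rfl; exact hcN (by rw [hγ]; ring)
  have hμ0 : μ ≠ 0 := by rintro rfl; exact hκN (by rw [hμ]; ring)
  set Θ := ψ.comp φ with hΘ
  have hκN3 : (ψ κ) ^ 3 * Θ c = 4 * Θ f := by
    have h1 : (ψ κ) ^ 3 = Θ (4 * f / c) := by rw [← map_pow, hκ']; rfl
    rw [h1, ← map_mul, div_mul_cancel₀ _ hc, map_mul, map_ofNat]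
  have hcc : Θ c = 1 - 4 * Θ f * Θ a ^ 3 := by
    rw [hcdef, map_sub, map_mul, map_mul, map_pow, map_one, map_ofNat]
  have hq : (ψ κ * Θ a) ^ 3 + 1 ≠ 0 := by
    have h1 : ((ψ κ * Θ a) ^ 3 + 1) * Θ c = 1 := by
      rw [mul_pow]
      linear_combination (Θ a ^ 3) * hκN3 + hcc
    intro h
    rw [h, zero_mul] at h1
    exact zero_ne_one h1
  have hfin := two N (ψ κ * Θ a) hq
  refine ((hfin.image (fun u => Θ e + (u / ψ κ - Θ a)⁻¹)).preimage
    (f := Θ) Θ.injective.injOn).subset ?_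
  rintro x ⟨-, hx⟩
  obtain ⟨hxe, hxe'⟩ := hx e he
  have hxe0 : x - e ≠ 0 := sub_ne_zero.mpr hxe
  -- the value of psi
  have hprod : ∃ σ : L, psi A B x = 3 * (σ * σ) := by
    have h1 := hs.eval_eq_prod_roots x
    rw [psiP_eval, hlead] at h1
    obtain ⟨σ, hσ⟩ := isSquare_prod ((psiP A B).roots.map (fun t => x - t)) (by
      intro b hb
      rw [Multiset.mem_map] at hb
      obtain ⟨t, ht, rfl⟩ := hb
      rw [mem_roots (psiP_ne _ _), IsRoot.def, psiP_eval] at ht
      exact (hx t ht).2)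
    exact ⟨σ, by rw [h1, hσ]⟩
  obtain ⟨σ, hσ⟩ := hprod
  -- the identity
  have hid : 4 * f * ((x - e)⁻¹ + a) ^ 3 + c = (σ / (x - e) ^ 2) ^ 2 := by
    have h2 : ff' A e ^ 2 = 12 * e * f := by rw [psi_eq] at he; linear_combination -he
    have h3 : psi A B x = 3 * (x - e) ^ 4 + 12 * e * (x - e) ^ 3 + 6 * ff' A e * (x - e) ^ 2 +
        12 * f * (x - e) := by
      have : psi A B x = psi A B x - psi A B e := by rw [he, sub_zero]
      rw [this, hfdef]
      simp only [psi, ff', ff]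
      ring
    have h4 : σ ^ 2 = (x - e) ^ 4 + 4 * e * (x - e) ^ 3 + 2 * ff' A e * (x - e) ^ 2 +
        4 * f * (x - e) := by
      linear_combination (1 / 3 : L) * (h3 - hσ)
    rw [div_pow, h4, hcdef, ha]
    field_simp
    linear_combination (72 * (x - e) ^ 2 * f) * h2
  refine ⟨ψ κ * (Θ ((x - e)⁻¹ + a)), ⟨⟨Θ (σ / (x - e) ^ 2) / γ, ?_⟩, ?_⟩, ?_⟩
  · have h5 := congrArg Θ hid
    rw [map_add, map_mul, map_mul, map_pow, map_pow, map_ofNat] at h5
    have hγ2 : γ ^ 2 = Θ c := by rw [sq]; exact hγ.symm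
    rw [div_pow, hγ2, div_eq_iff (by rw [← hγ2]; exact pow_ne_zero _ hγ0), ← h5, mul_pow]
    linear_combination (-(Θ ((x - e)⁻¹ + a)) ^ 3) * hκN3
  · obtain ⟨ν, hν⟩ := hxe'
    have hν0 : ν ≠ 0 := by rintro rfl; exact hxe0 (by rw [hν]; ring)
    refine ⟨μ * Θ ν⁻¹, ?_⟩
    rw [hμ, hν, map_add, mul_inv, map_mul]
    ring
  · simp only
    rw [mul_div_cancel_left₀ _ hκN, map_add, add_sub_cancel_right, map_inv₀, inv_inv, map_sub]
    ring

/-- **Four square classes.** -/
theorem four (K : Type) [Field K] [NumberField K] {q1 q2 q3 q4 : K} (h12 : q1 ≠ q2) (h13 : q1 ≠ q3)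
    (h23 : q2 ≠ q3) (h14 : q4 ≠ q1) (h24 : q4 ≠ q2) (h34 : q4 ≠ q3) :
    {x : K | IsSquare (x - q1) ∧ IsSquare (x - q2) ∧ IsSquare (x - q3) ∧ IsSquare (x - q4)}.Finite := by
  classical
  obtain ⟨L, _, _, φ, hφ⟩ := exists_sqrts K {(q4 - q1) * (q4 - q2) * (q4 - q3)}
  obtain ⟨w, hw⟩ := hφ _ (Finset.mem_singleton_self _)
  set m := (φ q1 + φ q2 + φ q3) / 3 with hm
  set e1 := φ q1 - m with he1
  set e2 := φ q2 - m with he2
  set e3 := φ q3 - m with he3
  have hsum : e1 + e2 + e3 = 0 := by rw [he1, he2, he3, hm]; ring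
  set A := e1 * e2 + e1 * e3 + e2 * e3 with hA
  set B := -(e1 * e2 * e3) with hB
  have hf : ∀ x, ff A B x = (x - e1) * (x - e2) * (x - e3) := by
    intro x
    simp only [ff, hA, hB]
    linear_combination (x ^ 2) * hsum
  have k12 : e1 ≠ e2 := fun h => h12 (φ.injective (sub_left_injective h))
  have k13 : e1 ≠ e3 := fun h => h13 (φ.injective (sub_left_injective h))
  have k23 : e2 ≠ e3 := fun h => h23 (φ.injective (sub_left_injective h))
  have hw' : w ^ 2 = ff A B (φ q4 - m) := by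
    rw [hf, he1, he2, he3]
    rw [map_mul, map_mul, map_sub, map_sub, map_sub] at hw
    linear_combination -hw
  have hw0 : w ≠ 0 := by
    rintro rfl
    rw [mul_zero, map_eq_zero] at hw
    exact mul_ne_zero (mul_ne_zero (sub_ne_zero.mpr h14) (sub_ne_zero.mpr h24))
      (sub_ne_zero.mpr h34) hw
  have hfin := propA k12 k13 k23 hf hw' hw0 (fun M _ _ ψ hs =>
    hyp M (dsc_map_ne ψ (dsc_ne k12 k13 k23 hf)) hs)
  refine (((hfin.image (fun x => x + m)).preimage (f := φ) φ.injective.injOn).union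
    (Set.finite_singleton q4)).subset ?_
  rintro x ⟨s1, s2, s3, s4⟩
  by_cases hx4 : x = q4
  · right; exact hx4
  left
  refine ⟨φ x - m, ⟨?_, ?_, ?_⟩, by simp⟩
  · intro h
    exact hx4 (φ.injective (sub_left_injective h))
  · obtain ⟨r1, hr1⟩ := s1.map φ
    obtain ⟨r2, hr2⟩ := s2.map φ
    obtain ⟨r3, hr3⟩ := s3.map φ
    refine ⟨r1 * r2 * r3, ?_⟩
    rw [map_sub] at hr1 hr2 hr3
    rw [hf, he1, he2, he3]
    have : (φ x - m - (φ q1 - m)) * (φ x - m - (φ q2 - m)) * (φ x - m - (φ q3 - m)) =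
      (φ x - φ q1) * (φ x - φ q2) * (φ x - φ q3) := by ring
    rw [this, hr1, hr2, hr3]
    ring
  · have : φ x - m - (φ q4 - m) = φ (x - q4) := by rw [map_sub]; ring
    rw [this]
    exact s4.map φ

end Pool.Agent.H422.HE
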