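import Mathlib
import Pool.Agent.H422.HE.Thm

/-!
# Mordell's conjecture for hyperelliptic curves over number fields
-/

set_option autoImplicit false

open Polynomial IsDedekindDomain NumberField

namespace Pool.Agent.H422.HE

/-- four square classes, valuative form -/
theorem four_val (K : Type) [Field K] [NumberField K] {S : Set (HeightOneSpectrum (𝓞 K))}
    (hS : S.Finite) {q1 q2 q3 q4 : K} (h12 : q1 ≠ q2) (h13 : q1 ≠ q3)
    (h23 : q2 ≠ q3) (h14 : q4 ≠ q1) (h24 : q4 ≠ q2) (h34 : q4 ≠ q3) :
    {x : K | ∀ v ∉ S, IsSquare (v.valuation K (x - q1)) ∧ IsSquare (v.valuation K (x - q2)) ∧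
      IsSquare (v.valuation K (x - q3)) ∧ IsSquare (v.valuation K (x - q4))}.Finite := by
  classical
  obtain ⟨T, hT0, hT⟩ := sel_sq (K := K) S hS
  obtain ⟨L, _, _, φ, hφ⟩ := exists_sqrts K T
  have hfin := four L (q1 := φ q1) (q2 := φ q2) (q3 := φ q3) (q4 := φ q4)
    (fun h => h12 (φ.injective h)) (fun h => h13 (φ.injective h)) (fun h => h23 (φ.injective h))
    (fun h => h14 (φ.injective h)) (fun h => h24 (φ.injective h)) (fun h => h34 (φ.injective h))
  refine ((hfin.preimage (f := φ) φ.injective.injOn).union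
    (({q1, q2, q3, q4} : Finset K).finite_toSet)).subset ?_
  intro x hx
  by_cases h1 : x = q1
  · right; simp [h1]
  by_cases h2 : x = q2
  · right; simp [h2]
  by_cases h3 : x = q3
  · right; simp [h3]
  by_cases h4 : x = q4
  · right; simp [h4]
  left
  have key : ∀ q : K, x ≠ q → (∀ v ∉ S, IsSquare (v.valuation K (x - q))) →
      IsSquare (φ x - φ q) := by
    intro q hq hv
    obtain ⟨t, ht, b, -, hb⟩ := hT (x - q) (sub_ne_zero.mpr hq) hv
    rw [← RingHom.map_sub, hb, RingHom.map_mul, RingHom.map_pow]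
    exact (hφ t ht).mul ⟨_, sq _⟩
  exact ⟨key q1 h1 fun v hv => (hx v hv).1, key q2 h2 fun v hv => (hx v hv).2.1,
    key q3 h3 fun v hv => (hx v hv).2.2.1, key q4 h4 fun v hv => (hx v hv).2.2.2⟩

/-- products of an odd number of linear factors -/
theorem prod_odd (K : Type) [Field K] [NumberField K] {S : Set (HeightOneSpectrum (𝓞 K))}
    (hS : S.Finite) (R : Finset K) (hodd : Odd R.card) (hR : 4 ≤ R.card) :
    {x : K | ∀ v ∉ S, IsSquare (v.valuation K (∏ r ∈ R, (x - r)))}.Finite := by
  classical
  obtain ⟨R', hR', hcard⟩ := Finset.exists_subset_card_eq hR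
  obtain ⟨q1, q2, q3, q4, h12, h13, h14, h23, h24, h34, hR4⟩ := Finset.card_eq_four.mp hcard
  set h : K[X] := ∏ r ∈ R, (X - C r) with hh
  have hm : h.Monic := monic_prod_of_monic _ _ fun r _ => monic_X_sub_C r
  have hdeg : h.natDegree = R.card := by
    rw [hh, natDegree_prod_of_monic _ _ fun r _ => monic_X_sub_C r]
    simp
  have heval : ∀ x, h.eval x = ∏ r ∈ R, (x - r) := by
    intro x
    rw [hh, eval_prod]
    simp
  have hsimple : ∀ r ∈ R, h.eval r = 0 ∧ h.derivative.eval r ≠ 0 := by
    intro r hr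
    have hfac : h = (X - C r) * ∏ s ∈ R.erase r, (X - C s) := by
      rw [hh, Finset.mul_prod_erase _ (fun s => (X - C s : K[X])) hr]
    refine ⟨by rw [hfac]; simp, ?_⟩
    rw [hfac, derivative_mul, eval_add, eval_mul, eval_mul]
    simp only [derivative_sub, derivative_X, derivative_C, sub_zero, eval_one, one_mul, eval_sub,
      eval_X, eval_C, sub_self, zero_mul, add_zero, eval_prod]
    rw [Finset.prod_ne_zero_iff]
    intro s hs
    rw [sub_ne_zero]
    exact (Finset.ne_of_mem_erase hs).symm
  have hodd' : Odd h.natDegree := by rw [hdeg]; exact hodd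
  have m1 : q1 ∈ R := hR' (by rw [hR4]; simp)
  have m2 : q2 ∈ R := hR' (by rw [hR4]; simp)
  have m3 : q3 ∈ R := hR' (by rw [hR4]; simp)
  have m4 : q4 ∈ R := hR' (by rw [hR4]; simp)
  have f1 := root_sq_fin hm hodd' (hsimple q1 m1).1 (hsimple q1 m1).2
  have f2 := root_sq_fin hm hodd' (hsimple q2 m2).1 (hsimple q2 m2).2
  have f3 := root_sq_fin hm hodd' (hsimple q3 m3).1 (hsimple q3 m3).2
  have f4 := root_sq_fin hm hodd' (hsimple q4 m4).1 (hsimple q4 m4).2
  refine (four_val K (hS.union ((f1.union f2).union (f3.union f4))) h12 h13 h23 h14.symm h24.symm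
    h34.symm).subset ?_
  intro x hx v hv
  simp only [Set.mem_union, Set.mem_ofPred_eq, not_or, not_not] at hv
  obtain ⟨g0, ⟨g1, g2⟩, g3, g4⟩ := hv
  have hx' := hx v g0
  rw [← heval] at hx'
  exact ⟨g1 x hx', g2 x hx', g3 x hx', g4 x hx'⟩

/-- a constant is a unit outside a finite set -/
lemma isSquare_of_const {K : Type} [Field K] [NumberField K] {c : K} {v : HeightOneSpectrum (𝓞 K)}
    (hv : v.valuation K c = 1) {y : K} (h : IsSquare (v.valuation K (c * y))) :
    IsSquare (v.valuation K y) := by
  rwa [map_mul, hv, one_mul] at h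

/-- products of at least five linear factors -/
theorem prod_five (K : Type) [Field K] [NumberField K] {S : Set (HeightOneSpectrum (𝓞 K))}
    (hS : S.Finite) (R : Finset K) (hR : 5 ≤ R.card) {c : K} (hc : c ≠ 0) :
    {x : K | ∀ v ∉ S, IsSquare (v.valuation K (c * ∏ r ∈ R, (x - r)))}.Finite := by
  classical
  rcases Nat.even_or_odd R.card with he | ho
  · obtain ⟨r0, hr0⟩ : R.Nonempty := Finset.card_pos.mp (by omega)
    set R1 := (R.erase r0).image (fun r => (r - r0)⁻¹) with hR1
    have hinj : Set.InjOn (fun r => (r - r0)⁻¹) (R.erase r0 : Set K) := by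
      intro a _ b _ hab
      exact sub_left_injective (inv_injective hab)
    have hcard : R1.card = R.card - 1 := by
      rw [hR1, Finset.card_image_of_injOn hinj, Finset.card_erase_of_mem hr0]
    set C1 := c * ∏ r ∈ R.erase r0, (r0 - r) with hC1
    have hC10 : C1 ≠ 0 := by
      refine mul_ne_zero hc (Finset.prod_ne_zero_iff.mpr fun r hr => sub_ne_zero.mpr ?_)
      exact (Finset.ne_of_mem_erase hr).symm
    have hodd : Odd R1.card := by
      rw [hcard]
      obtain ⟨k, hk⟩ := he
      exact ⟨k - 1, by omega⟩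
    have hfin := prod_odd K (hS.union (finite_unit C1 hC10)) R1 hodd (by omega)
    refine ((hfin.image (fun z => r0 + z⁻¹)).union (Set.finite_singleton r0)).subset ?_
    intro x hx
    by_cases hx0 : x = r0
    · right; exact hx0
    left
    have hx0' : x - r0 ≠ 0 := sub_ne_zero.mpr hx0
    refine ⟨(x - r0)⁻¹, ?_, by simp⟩
    intro v hv
    simp only [Set.mem_union, Set.mem_ofPred_eq, not_or, not_not] at hv
    have h1 := hx v hv.1
    -- the identity
    have hid : c * ∏ r ∈ R, (x - r) =
        (x - r0) ^ R.card * (C1 * ∏ z ∈ R1, ((x - r0)⁻¹ - z)) := by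
      rw [hR1, Finset.prod_image hinj, hC1, ← Finset.mul_prod_erase R (fun r => x - r) hr0]
      have h2 : (x - r0) ^ R.card = (x - r0) * ∏ r ∈ R.erase r0, (x - r0) := by
        rw [Finset.prod_const, Finset.card_erase_of_mem hr0, ← pow_succ']
        congr 1
        omega
      rw [h2]
      have h3 : ∏ r ∈ R.erase r0, (x - r) = (∏ r ∈ R.erase r0, (x - r0)) *
          ((∏ r ∈ R.erase r0, (r0 - r)) * ∏ r ∈ R.erase r0, ((x - r0)⁻¹ - (r - r0)⁻¹)) := by
        rw [← Finset.prod_mul_distrib, ← Finset.prod_mul_distrib]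
        apply Finset.prod_congr rfl
        intro r hr
        have h4 : r - r0 ≠ 0 := sub_ne_zero.mpr (Finset.ne_of_mem_erase hr)
        have h5 : r0 - r = -(r - r0) := by ring
        rw [h5]
        field_simp
        ring
      rw [h3]
      ring
    rw [hid] at h1
    have h6 : IsSquare (v.valuation K ((x - r0) ^ R.card)) := by
      obtain ⟨k, hk⟩ := he
      rw [hk, pow_add]
      exact ⟨v.valuation K ((x - r0) ^ k), map_mul _ _ _⟩
    rw [map_mul] at h1
    have h7 := sq_of_mul_left h6 ((Valuation.ne_zero_iff _).mpr (pow_ne_zero _ hx0')) h1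
    exact isSquare_of_const hv.2 h7
  · refine (prod_odd K (hS.union (finite_unit c hc)) R ho (by omega)).subset ?_
    intro x hx v hv
    simp only [Set.mem_union, Set.mem_ofPred_eq, not_or, not_not] at hv
    exact isSquare_of_const hv.2 (hx v hv.1)

/-- **Mordell's conjecture for hyperelliptic curves** (valuative form): for a separable polynomial
`f` of degree at least five over a number field, only finitely many values `f(x)` have even
valuations outside a given finite set of primes. -/
theorem hyper_val (K : Type) [Field K] [NumberField K] {S : Set (HeightOneSpectrum (𝓞 K))}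
    (hS : S.Finite) {f : K[X]} (hf : f.Separable) (hdeg : 5 ≤ f.natDegree) :
    {x : K | ∀ v ∉ S, IsSquare (v.valuation K (f.eval x))}.Finite := by
  classical
  obtain ⟨T, hT0, hT⟩ := sel_sq (K := K) S hS
  obtain ⟨L0, _, _, φ0, hφ0⟩ := exists_sqrts K T
  obtain ⟨L, _, _, φ1, hφ1⟩ := exists_split L0 (f.map φ0)
  set φ := φ1.comp φ0 with hφ
  have hsp : (f.map φ).Splits := by rwa [hφ, ← Polynomial.map_map]
  have hf0 : f ≠ 0 := hf.ne_zero
  have hf0' : f.map φ ≠ 0 := by rwa [Ne, Polynomial.map_eq_zero]
  have hsep : (f.map φ).Separable := hf.map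
  have hnd : (f.map φ).roots.Nodup := nodup_roots hsep
  have hcard : (f.map φ).roots.toFinset.card = f.natDegree := by
    rw [Multiset.toFinset_card_of_nodup hnd, splits_iff_card_roots.mp hsp, natDegree_map]
  have hfin := prod_five L (S := ∅) Set.finite_empty (f.map φ).roots.toFinset (by rw [hcard]; exact hdeg)
    (c := (f.map φ).leadingCoeff) (leadingCoeff_ne_zero.mpr hf0')
  refine ((hfin.preimage (f := φ) φ.injective.injOn).union
    (f.roots.toFinset.finite_toSet)).subset ?_
  intro x hx
  by_cases hx0 : f.eval x = 0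
  · right
    rw [Finset.mem_coe, Multiset.mem_toFinset, mem_roots hf0]
    exact hx0
  left
  intro v _
  obtain ⟨t, ht, b, -, hb⟩ := hT (f.eval x) hx0 hx
  have h1 : (f.map φ).eval (φ x) = φ (f.eval x) := eval_map_apply ..
  have h2 := hsp.eval_eq_prod_roots (φ x)
  have h3 : ∏ r ∈ (f.map φ).roots.toFinset, (φ x - r) =
      ((f.map φ).roots.map (fun r => φ x - r)).prod := by
    rw [Finset.prod_eq_multiset_prod, Multiset.toFinset_val, hnd.dedup]
  rw [h3, ← h2, h1]
  apply map_isSquare
  rw [hb, RingHom.map_mul, RingHom.map_pow]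
  refine IsSquare.mul ?_ ⟨_, sq _⟩
  exact (hφ0 t ht).map φ1

/-- **Mordell's conjecture for hyperelliptic curves**: `y ^ 2 = f(x)` has finitely many points over
every number field, for every separable polynomial `f` of degree at least five. -/
theorem hyper (K : Type) [Field K] [NumberField K] {f : K[X]} (hf : f.Separable)
    (hdeg : 5 ≤ f.natDegree) : {x : K | ∃ y : K, y ^ 2 = f.eval x}.Finite := by
  refine (hyper_val K Set.finite_empty hf hdeg).subset ?_
  rintro x ⟨y, hy⟩ v _
  rw [← hy]
  exact map_isSquare _ ⟨y, sq y⟩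

end Pool.Agent.H422.HE
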