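import Mathlib
import Pool.Agent.H422.HE.Sel

/-!
Finiteness of the elements whose orders outside a finite set are multiples of `m`, up to `m`-th
powers (after `Pool/Agent/H437R2/Man/MWSel.lean` of the library, which treats squares).
-/

set_option autoImplicit false

open IsDedekindDomain NumberField
open scoped nonZeroDivisors

namespace Pool.Agent.H422.HE

lemma multiset_div {α : Type*} [DecidableEq α] {m : ℕ} (hm : 0 < m) (s : Multiset α) :
    ∃ t d : Multiset α, s = m • t + d ∧ ∀ p, d.count p < m := by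
  refine ⟨Multiset.toFinsupp.symm ((Multiset.toFinsupp s).mapRange (· / m) (Nat.zero_div m)),
    Multiset.toFinsupp.symm ((Multiset.toFinsupp s).mapRange (· % m) (Nat.zero_mod m)), ?_, ?_⟩
  · rw [Multiset.ext]
    intro a
    rw [Multiset.count_add, Multiset.count_nsmul]
    have h1 : ∀ f : α →₀ ℕ, (Multiset.toFinsupp.symm f).count a = f a := by
      intro f
      rw [← Multiset.toFinsupp_apply, AddEquiv.apply_symm_apply]
    rw [h1, h1, Finsupp.mapRange_apply, Finsupp.mapRange_apply, Multiset.toFinsupp_apply]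
    exact (Nat.div_add_mod _ _).symm
  · intro p
    have h1 : ∀ f : α →₀ ℕ, (Multiset.toFinsupp.symm f).count p = f p := by
      intro f
      rw [← Multiset.toFinsupp_apply, AddEquiv.apply_symm_apply]
    rw [h1, Finsupp.mapRange_apply]
    exact Nat.mod_lt _ hm

variable {K : Type} [Field K] [NumberField K]

/-- structure of ideals with orders divisible by `m` away from `S` -/
lemma ideal_div {m : ℕ} (hm : 0 < m) (S : Set (HeightOneSpectrum (𝓞 K))) (hS : S.Finite) :
    ∃ D : Finset (Ideal (𝓞 K)), ∀ I : Ideal (𝓞 K), I ≠ 0 →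
      (∀ v : HeightOneSpectrum (𝓞 K), v ∉ S →
        m ∣ ((UniqueFactorizationMonoid.normalizedFactors I).count v.asIdeal)) →
      ∃ d ∈ D, ∃ J : Ideal (𝓞 K), J ≠ 0 ∧ I = J ^ m * d := by
  classical
  set S' : Finset (Ideal (𝓞 K)) := hS.toFinset.image (fun v => v.asIdeal) with hS'
  refine ⟨((m • S'.val).powerset.toFinset).image (fun s => s.prod), fun I hI hev => ?_⟩
  obtain ⟨t, d, hs, hd⟩ := multiset_div hm (UniqueFactorizationMonoid.normalizedFactors I)
  have hmem_t : ∀ p ∈ t, p ∈ UniqueFactorizationMonoid.normalizedFactors I := by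
    intro p hp
    rw [hs]
    exact Multiset.mem_add.mpr (Or.inl (Multiset.mem_nsmul.mpr ⟨by omega, hp⟩))
  have hdS : ∀ p ∈ d, p ∈ S' := by
    intro p hp
    have hpI : p ∈ UniqueFactorizationMonoid.normalizedFactors I := by
      rw [hs]; exact Multiset.mem_add.mpr (Or.inr hp)
    have hpp : Prime p := UniqueFactorizationMonoid.prime_of_normalized_factor p hpI
    let v : HeightOneSpectrum (𝓞 K) := ⟨p, Ideal.isPrime_of_prime hpp, hpp.ne_zero⟩
    by_contra hn
    have hv : v ∉ S := by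
      intro hv
      apply hn
      rw [hS', Finset.mem_image]
      exact ⟨v, by simpa using hv, rfl⟩
    have h1 := hev v hv
    rw [hs] at h1
    have h2 : 0 < Multiset.count p d := Multiset.count_pos.mpr hp
    have h4 := hd p
    have h3 : Multiset.count v.asIdeal (m • t + d) =
        m * Multiset.count p t + Multiset.count p d := by
      change Multiset.count p (m • t + d) = _
      rw [Multiset.count_add, Multiset.count_nsmul]
    rw [h3] at h1
    have h5 : m ∣ Multiset.count p d := (Nat.dvd_add_right (dvd_mul_right _ _)).mp h1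
    have := Nat.le_of_dvd h2 h5
    omega
  refine ⟨d.prod, ?_, t.prod, ?_, ?_⟩
  · rw [Finset.mem_image]
    refine ⟨d, ?_, rfl⟩
    rw [Multiset.mem_toFinset, Multiset.mem_powerset, Multiset.le_iff_count]
    intro p
    by_cases hp : p ∈ d
    · have h1 := hdS p hp
      have h2 : Multiset.count p S'.val = 1 := Multiset.count_eq_one_of_mem S'.nodup h1
      rw [Multiset.count_nsmul, h2, mul_one]
      exact (hd p).le
    · rw [Multiset.count_eq_zero_of_notMem hp]
      exact Nat.zero_le _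
  · intro h0
    rw [Multiset.prod_eq_zero_iff] at h0
    exact (UniqueFactorizationMonoid.prime_of_normalized_factor _ (hmem_t _ h0)).ne_zero rfl
  · have h2 : (UniqueFactorizationMonoid.normalizedFactors I).prod = I := by
      have := UniqueFactorizationMonoid.prod_normalizedFactors hI
      exact associated_iff_eq.mp this
    conv_lhs => rw [← h2, hs]
    rw [Multiset.prod_add, Multiset.prod_nsmul]

/-- finiteness of units modulo `m`-th powers -/
lemma units_pow (K : Type) [Field K] [NumberField K] {m : ℕ} (hm : m ≠ 0) :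
    ∃ T : Finset (𝓞 K)ˣ, ∀ u : (𝓞 K)ˣ, ∃ t ∈ T, ∃ w : (𝓞 K)ˣ, u = t * w ^ m := by
  classical
  have : Group.FG (𝓞 K)ˣ := Group.fg_iff_monoid_fg.mpr inferInstance
  have h := Subgroup.finiteIndex_range_powMonoidHom_of_fg (𝓞 K)ˣ (n := m) hm
  have : Finite ((𝓞 K)ˣ ⧸ (powMonoidHom (α := (𝓞 K)ˣ) m).range) :=
    Subgroup.finite_quotient_of_finiteIndex
  have := Fintype.ofFinite ((𝓞 K)ˣ ⧸ (powMonoidHom (α := (𝓞 K)ˣ) m).range)
  refine ⟨Finset.univ.image (fun q : (𝓞 K)ˣ ⧸ (powMonoidHom (α := (𝓞 K)ˣ) m).range => q.out),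
    fun u => ?_⟩
  refine ⟨(QuotientGroup.mk (s := (powMonoidHom (α := (𝓞 K)ˣ) m).range) u).out,
    Finset.mem_image_of_mem _ (Finset.mem_univ _), ?_⟩
  have h1 : QuotientGroup.mk (s := (powMonoidHom (α := (𝓞 K)ˣ) m).range)
      (QuotientGroup.mk (s := (powMonoidHom (α := (𝓞 K)ˣ) m).range) u).out =
      QuotientGroup.mk u := QuotientGroup.out_eq' _
  rw [QuotientGroup.eq] at h1
  obtain ⟨w, hw⟩ := h1
  refine ⟨w, ?_⟩
  rw [powMonoidHom_apply] at hw
  rw [hw, mul_inv_cancel_left]

/-- integral version of the finiteness. -/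
lemma selM_int {m : ℕ} (hm : 0 < m) (S : Set (HeightOneSpectrum (𝓞 K))) (hS : S.Finite) :
    ∃ T : Finset (𝓞 K), (∀ t ∈ T, t ≠ 0) ∧ ∀ a : 𝓞 K, a ≠ 0 →
      (∀ v : HeightOneSpectrum (𝓞 K), v ∉ S →
        m ∣ ((UniqueFactorizationMonoid.normalizedFactors (Ideal.span {a})).count v.asIdeal)) →
      ∃ t ∈ T, ∃ x y : 𝓞 K, x ≠ 0 ∧ y ≠ 0 ∧ x ^ m * a = t * y ^ m := by
  classical
  obtain ⟨D, hD⟩ := ideal_div hm S hS
  obtain ⟨U, hU⟩ := units_pow K hm.ne'
  -- the relation between integers and (ideal, class)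
  let Rel : Ideal (𝓞 K) × ClassGroup (𝓞 K) → 𝓞 K → Prop := fun c a =>
    a ≠ 0 ∧ ∃ J : (Ideal (𝓞 K))⁰, Ideal.span {a} = (J : Ideal (𝓞 K)) ^ m * c.1 ∧
      ClassGroup.mk0 J = c.2
  let rep : Ideal (𝓞 K) × ClassGroup (𝓞 K) → 𝓞 K := fun c =>
    if h : ∃ a, Rel c a then Classical.choose h else 1
  have hrep0 : ∀ c, rep c ≠ 0 := by
    intro c
    simp only [rep]
    split_ifs with h
    · exact (Classical.choose_spec h).1
    · exact one_ne_zero
  let T : Finset (𝓞 K) := ((D ×ˢ (Finset.univ : Finset (ClassGroup (𝓞 K)))) ×ˢ U).image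
    (fun c => rep c.1 * (c.2 : 𝓞 K))
  refine ⟨T, ?_, ?_⟩
  · intro t ht
    simp only [T, Finset.mem_image] at ht
    obtain ⟨c, -, rfl⟩ := ht
    exact mul_ne_zero (hrep0 _) (Units.ne_zero _)
  · intro a ha hev
    have hI : Ideal.span {a} ≠ (0 : Ideal (𝓞 K)) := by simpa using ha
    obtain ⟨d, hd, J, hJ, hIJ⟩ := hD _ hI hev
    set J' : (Ideal (𝓞 K))⁰ := ⟨J, mem_nonZeroDivisors_iff_ne_zero.mpr hJ⟩ with hJ'
    have hR : Rel (d, ClassGroup.mk0 J') a := ⟨ha, J', hIJ, rfl⟩
    have hex : ∃ a, Rel (d, ClassGroup.mk0 J') a := ⟨a, hR⟩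
    have hrepe : rep (d, ClassGroup.mk0 J') = Classical.choose hex := by
      simp only [rep]
      rw [dif_pos hex]
    obtain ⟨hb0, J2, hJ2, hcl⟩ := Classical.choose_spec hex
    rw [← hrepe] at hb0 hJ2
    set b := rep (d, ClassGroup.mk0 J') with hb
    obtain ⟨x, y, hx, hy, hxy⟩ := ClassGroup.mk0_eq_mk0_iff.mp hcl
    -- x J2 = y J
    have h1 : Ideal.span {y ^ m * a} = Ideal.span {x ^ m * b} := by
      rw [← Ideal.span_singleton_mul_span_singleton, ← Ideal.span_singleton_mul_span_singleton,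
        ← Ideal.span_singleton_pow, ← Ideal.span_singleton_pow, hIJ, hJ2]
      have h2 : (Ideal.span {y} * (J' : Ideal (𝓞 K))) = Ideal.span {x} * (J2 : Ideal (𝓞 K)) :=
        hxy.symm
      calc Ideal.span {y} ^ m * (J ^ m * d) = (Ideal.span {y} * J) ^ m * d := by
            rw [mul_pow, mul_assoc]
        _ = (Ideal.span {x} * (J2 : Ideal (𝓞 K))) ^ m * d := by rw [← h2]
        _ = _ := by rw [mul_pow, mul_assoc]
    rw [Ideal.span_singleton_eq_span_singleton] at h1
    obtain ⟨u, hu⟩ := h1.symm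
    obtain ⟨t, ht, w, hw⟩ := hU u
    refine ⟨b * (t : 𝓞 K), ?_, y, x * (w : 𝓞 K), hy, mul_ne_zero hx (Units.ne_zero _), ?_⟩
    · simp only [T, Finset.mem_image]
      refine ⟨((d, ClassGroup.mk0 J'), t), ?_, rfl⟩
      simp only [Finset.mem_product, Finset.mem_univ, and_true]
      exact ⟨hd, ht⟩
    · rw [← hu, hw]
      push_cast
      ring

/-- **Selmer groups are finite**: the elements with values outside `S` which are `m`-th powers
lie in finitely many classes modulo `m`-th powers. -/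
theorem sel_pow {m : ℕ} (hm : 0 < m) (S : Set (HeightOneSpectrum (𝓞 K))) (hS : S.Finite) :
    ∃ T : Finset K, (∀ t ∈ T, t ≠ 0) ∧ ∀ a : K, a ≠ 0 →
      (∀ v : HeightOneSpectrum (𝓞 K), v ∉ S → ∃ g, v.valuation K a = g ^ m) →
      ∃ t ∈ T, ∃ b : K, b ≠ 0 ∧ a = t * b ^ m := by
  classical
  obtain ⟨T, hT0, hT⟩ := selM_int (K := K) hm S hS
  refine ⟨T.image (fun t => algebraMap (𝓞 K) K t), ?_, ?_⟩
  · intro t ht
    obtain ⟨s, hs, rfl⟩ := Finset.mem_image.mp ht
    simpa using hT0 s hs
  · intro a ha hev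
    obtain ⟨p, q, hq, hpq⟩ := IsFractionRing.div_surjective (A := 𝓞 K) a
    have hq0 : q ≠ 0 := nonZeroDivisors.ne_zero hq
    have hqK : algebraMap (𝓞 K) K q ≠ 0 := by simpa using hq0
    have hp0 : p ≠ 0 := by
      rintro rfl
      rw [map_zero, zero_div] at hpq
      exact ha hpq.symm
    have hpq0 : p * q ^ (m - 1) ≠ 0 := mul_ne_zero hp0 (pow_ne_zero _ hq0)
    have hpqK : algebraMap (𝓞 K) K (p * q ^ (m - 1)) ≠ 0 := by
      simpa using hpq0
    have hpow : q ^ m = q * q ^ (m - 1) := by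
      rw [← pow_succ']; congr 1; omega
    obtain ⟨t, ht, x, y, hx, hy, hxy⟩ := hT (p * q ^ (m - 1)) hpq0 (by
      intro v hv
      have h1 := Pool.Agent.H437R2.Man.MW.val_int v (p * q ^ (m - 1)) hpq0 (Units.mk0 _ hpqK) rfl
      have h2 : Units.mk0 _ hpqK = Units.mk0 a ha * (Units.mk0 _ hqK) ^ m := by
        apply Units.ext
        rw [Units.val_mul, Units.val_pow_eq_pow_val, Units.val_mk0, Units.val_mk0, Units.val_mk0,
          ← hpq, map_mul, ← map_pow, hpow, map_mul]
        field_simp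
      have hdv : (m : ℤ) ∣ Multiplicative.toAdd (v.valuationOfNeZero (Units.mk0 a ha)) := by
        obtain ⟨g, hg⟩ := hev v hv
        have h3 := v.valuationOfNeZero_eq (K := K) (Units.mk0 a ha)
        rw [Units.val_mk0, hg] at h3
        have hg0 : g ≠ 0 := by
          rintro rfl
          rw [zero_pow hm.ne'] at hg
          exact (Valuation.ne_zero_iff _).mpr ha hg
        obtain ⟨n, rfl⟩ := WithZero.ne_zero_iff_exists.mp hg0
        rw [← WithZero.coe_pow] at h3
        have h4 := WithZero.coe_injective h3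
        rw [h4, toAdd_pow, nsmul_eq_mul]
        exact dvd_mul_right _ _
      rw [h2, map_mul, map_pow, toAdd_mul, toAdd_pow] at h1
      have h3 : (m : ℤ) ∣ (-((UniqueFactorizationMonoid.normalizedFactors
          (Ideal.span {p * q ^ (m - 1)})).count v.asIdeal : ℤ)) := by
        rw [← h1]
        refine dvd_add hdv ?_
        rw [nsmul_eq_mul]
        exact Dvd.intro _ rfl
      rw [dvd_neg] at h3
      exact_mod_cast h3)
    have hxK : algebraMap (𝓞 K) K x ≠ 0 := by simpa using hx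
    have hyK : algebraMap (𝓞 K) K y ≠ 0 := by simpa using hy
    refine ⟨algebraMap (𝓞 K) K t, Finset.mem_image_of_mem _ ht,
      algebraMap (𝓞 K) K y / (algebraMap (𝓞 K) K x * algebraMap (𝓞 K) K q),
      div_ne_zero hyK (mul_ne_zero hxK hqK), ?_⟩
    have h4 := congrArg (algebraMap (𝓞 K) K) hxy
    simp only [map_mul, map_pow] at h4
    have hpow' : algebraMap (𝓞 K) K q ^ m = algebraMap (𝓞 K) K q * algebraMap (𝓞 K) K q ^ (m - 1) := by
      rw [← pow_succ']; congr 1; omega
    rw [← hpq, div_pow, mul_pow, hpow']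
    field_simp
    linear_combination h4

/-- extension containing `m`-th roots of finitely many elements -/
theorem exists_mroots (K : Type) [Field K] [NumberField K] {m : ℕ} (hm : 0 < m) (T : Finset K) :
    ∃ (L : Type) (_ : Field L) (_ : NumberField L) (φ : K →+* L), ∀ t ∈ T, ∃ s, φ t = s ^ m := by
  classical
  obtain ⟨L, i1, i2, φ, hφ⟩ := exists_split K (∏ t ∈ T, (Polynomial.X ^ m - Polynomial.C t))
  refine ⟨L, i1, i2, φ, fun t ht => ?_⟩
  have hne : (∏ t ∈ T, (Polynomial.X ^ m - Polynomial.C t : Polynomial K)) ≠ 0 :=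
    Finset.prod_ne_zero_iff.mpr fun t _ => (Polynomial.monic_X_pow_sub_C t hm.ne').ne_zero
  have h1 : ((Polynomial.X ^ m - Polynomial.C t : Polynomial K).map φ).Splits := by
    refine Polynomial.Splits.of_dvd hφ ?_ (Polynomial.map_dvd φ (Finset.dvd_prod_of_mem _ ht))
    rwa [Ne, Polynomial.map_eq_zero]
  have hdeg : ((Polynomial.X ^ m - Polynomial.C t : Polynomial K).map φ).degree ≠ 0 := by
    rw [Polynomial.degree_map, Polynomial.degree_X_pow_sub_C hm]
    exact_mod_cast hm.ne'
  obtain ⟨s, hs⟩ := h1.exists_eval_eq_zero hdeg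
  refine ⟨s, ?_⟩
  have : s ^ m - φ t = 0 := by simpa using hs
  linear_combination -this

end Pool.Agent.H422.HE
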