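import Mathlib
import Pool.Agent.H422.HE.Hyper
import Pool.Agent.H422.HE.SelM

/-!
# Power classes at several points (Fermat-type and superelliptic curves)
-/

set_option autoImplicit false

open Polynomial IsDedekindDomain NumberField

namespace Pool.Agent.H422.HE

section sep
variable {F : Type*} [Field F]

lemma coprime_X {P : F[X]} (h : P.coeff 0 ≠ 0) : IsCoprime P X := by
  apply IsCoprime.symm
  rw [Polynomial.irreducible_X.coprime_iff_not_dvd, X_dvd_iff]
  exact h

lemma isCoprime_const {P Q : F[X]} {c : F} (hc : c ≠ 0) (h : P = Q ^ 2 + C c) : IsCoprime P Q := by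
  refine ⟨C c⁻¹, -(C c⁻¹) * Q, ?_⟩
  rw [h]
  have : C c⁻¹ * C c = (1 : F[X]) := by rw [← C_mul, inv_mul_cancel₀ hc, C_1]
  linear_combination this

variable [CharZero F]

/-- `(δ X ^ m + β) ^ 2 + κ` -/
lemma sep_two {m : ℕ} (hm : 0 < m) {δ β κ : F} (hδ : δ ≠ 0) (hκ : κ ≠ 0) (h0 : β ^ 2 + κ ≠ 0) :
    ((C δ * X ^ m + C β) ^ 2 + C κ : F[X]).Separable ∧
      ((C δ * X ^ m + C β) ^ 2 + C κ : F[X]).natDegree = 2 * m := by
  constructor
  · rw [Separable]
    have hder : derivative ((C δ * X ^ m + C β) ^ 2 + C κ : F[X]) =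
        C (2 * δ * m) * (X ^ (m - 1) * (C δ * X ^ m + C β)) := by
      rw [derivative_add, derivative_pow, derivative_add, derivative_mul, derivative_X_pow,
        derivative_C, derivative_C, derivative_C]
      simp only [map_mul, map_natCast, Nat.cast_ofNat, map_ofNat]
      ring
    rw [hder]
    have hm' : (m : F) ≠ 0 := Nat.cast_ne_zero.mpr hm.ne'
    have hu : IsUnit (C (2 * δ * m) : F[X]) := by
      rw [isUnit_C, isUnit_iff_ne_zero]
      exact mul_ne_zero (mul_ne_zero two_ne_zero hδ) hm'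
    rw [isCoprime_mul_unit_left_right hu]
    refine IsCoprime.mul_right (IsCoprime.pow_right (coprime_X ?_)) (isCoprime_const hκ rfl)
    rw [coeff_zero_eq_eval_zero]
    simp only [eval_add, eval_pow, eval_mul, eval_C, eval_X, zero_pow hm.ne', mul_zero, zero_add]
    exact h0
  · have h1 : (C δ * X ^ m + C β : F[X]).natDegree = m := by
      rw [natDegree_add_C, natDegree_C_mul_X_pow m δ hδ]
    rw [natDegree_add_C, natDegree_pow, h1]

/-- `δ X ^ m + e` -/
lemma sep_one {m : ℕ} (hm : 0 < m) {δ e : F} (hδ : δ ≠ 0) (he : e ≠ 0) :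
    (C δ * X ^ m + C e : F[X]).Separable ∧ (C δ * X ^ m + C e : F[X]).natDegree = m := by
  constructor
  · rw [Separable]
    have hder : derivative (C δ * X ^ m + C e : F[X]) = C (δ * m) * X ^ (m - 1) := by
      rw [derivative_add, derivative_mul, derivative_X_pow, derivative_C, derivative_C]
      simp only [map_mul, map_natCast]
      ring
    rw [hder]
    have hm' : (m : F) ≠ 0 := Nat.cast_ne_zero.mpr hm.ne'
    have hu : IsUnit (C (δ * m) : F[X]) := by
      rw [isUnit_C, isUnit_iff_ne_zero]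
      exact mul_ne_zero hδ hm'
    rw [isCoprime_mul_unit_left_right hu]
    refine IsCoprime.pow_right (coprime_X ?_)
    rw [coeff_zero_eq_eval_zero]
    simp only [eval_add, eval_pow, eval_mul, eval_C, eval_X, zero_pow hm.ne', mul_zero, zero_add]
    exact he
  · rw [natDegree_add_C, natDegree_C_mul_X_pow m δ hδ]

end sep

/-- finitely many `x` with given `(x - q1) (x - q2)` -/
lemma quad_finite {F : Type*} [Field F] (b c : F) : {x : F | x ^ 2 + b * x + c = 0}.Finite := by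
  classical
  have h : (X ^ 2 + C b * X + C c : F[X]) ≠ 0 := by
    have : (X ^ 2 + C b * X + C c : F[X]).natDegree = 2 := by compute_degree!
    intro h0
    rw [h0, natDegree_zero] at this
    norm_num at this
  refine ((X ^ 2 + C b * X + C c : F[X]).roots.toFinset.finite_toSet).subset ?_
  intro x hx
  rw [Finset.mem_coe, Multiset.mem_toFinset, mem_roots h, IsRoot.def]
  simpa using hx

/-- two points, exponent at least five -/
theorem two_pts (K : Type) [Field K] [NumberField K] {S : Set (HeightOneSpectrum (𝓞 K))}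
    (hS : S.Finite) {m : ℕ} (hm : 5 ≤ m) {q1 q2 : K} (h12 : q1 ≠ q2) :
    {x : K | ∀ v ∉ S, (∃ g, v.valuation K (x - q1) = g ^ m) ∧
      ∃ g, v.valuation K (x - q2) = g ^ m}.Finite := by
  classical
  obtain ⟨T, hT0, hT⟩ := sel_pow (K := K) (m := m) (by omega) S hS
  have key : ∀ δ ∈ T, {s : K | ∃ y : K, y ^ 2 = (C δ * X ^ m + C (((q1 - q2) / 2) ^ 2) : K[X]).eval s}.Finite := by
    intro δ hδ
    have he : ((q1 - q2) / 2) ^ 2 ≠ 0 := pow_ne_zero _ (div_ne_zero (sub_ne_zero.mpr h12) two_ne_zero)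
    obtain ⟨h1, h2⟩ := sep_one (m := m) (by omega) (hT0 δ hδ) he
    exact hyper K h1 (by rw [h2]; exact hm)
  refine (((T.finite_toSet.biUnion (t := fun δ => ⋃ s ∈ {s : K | ∃ y : K, y ^ 2 =
    (C δ * X ^ m + C (((q1 - q2) / 2) ^ 2) : K[X]).eval s}, {x : K | x ^ 2 + (-(q1 + q2)) * x +
    (q1 * q2 - δ * s ^ m) = 0}) ?_)).union (({q1, q2} : Finset K).finite_toSet)).subset ?_
  · intro δ hδ
    exact (key δ hδ).biUnion fun s _ => quad_finite _ _
  · intro x hx
    by_cases h1 : x = q1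
    · right; simp [h1]
    by_cases h2 : x = q2
    · right; simp [h2]
    left
    have hne : (x - q1) * (x - q2) ≠ 0 := mul_ne_zero (sub_ne_zero.mpr h1) (sub_ne_zero.mpr h2)
    obtain ⟨t, ht, b, -, hb⟩ := hT _ hne (by
      intro v hv
      obtain ⟨⟨g, hg⟩, g', hg'⟩ := hx v hv
      exact ⟨g * g', by rw [map_mul, hg, hg', mul_pow]⟩)
    simp only [Set.mem_iUnion]
    refine ⟨t, ht, b, ⟨x - (q1 + q2) / 2, ?_⟩, ?_⟩
    · simp only [eval_add, eval_mul, eval_C, eval_pow, eval_X]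
      linear_combination hb
    · simp only [Set.mem_ofPred_eq]
      linear_combination hb

/-- three points, exponent at least three -/
theorem three_pts (K : Type) [Field K] [NumberField K] {S : Set (HeightOneSpectrum (𝓞 K))}
    (hS : S.Finite) {m : ℕ} (hm : 3 ≤ m) {q1 q2 q3 : K} (h12 : q1 ≠ q2) (h13 : q1 ≠ q3)
    (h23 : q2 ≠ q3) :
    {x : K | ∀ v ∉ S, (∃ g, v.valuation K (x - q1) = g ^ m) ∧
      (∃ g, v.valuation K (x - q2) = g ^ m) ∧ ∃ g, v.valuation K (x - q3) = g ^ m}.Finite := by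
  classical
  obtain ⟨T, hT0, hT⟩ := sel_pow (K := K) (m := m) (by omega) S hS
  have key : ∀ δ ∈ T, {s : K | ∃ y : K, y ^ 2 =
      ((C δ * X ^ m + C (q1 + q2 - 2 * q3)) ^ 2 + C (-4 * (q1 - q3) * (q2 - q3)) : K[X]).eval s}.Finite := by
    intro δ hδ
    have hκ : -4 * (q1 - q3) * (q2 - q3) ≠ 0 :=
      mul_ne_zero (mul_ne_zero (by norm_num) (sub_ne_zero.mpr h13)) (sub_ne_zero.mpr h23)
    have h0 : (q1 + q2 - 2 * q3) ^ 2 + -4 * (q1 - q3) * (q2 - q3) ≠ 0 := by
      have : (q1 + q2 - 2 * q3) ^ 2 + -4 * (q1 - q3) * (q2 - q3) = (q1 - q2) ^ 2 := by ring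
      rw [this]
      exact pow_ne_zero _ (sub_ne_zero.mpr h12)
    obtain ⟨h1, h2⟩ := sep_two (m := m) (by omega) (hT0 δ hδ) hκ h0
    exact hyper K h1 (by rw [h2]; omega)
  refine (((T.finite_toSet.biUnion (t := fun δ => ⋃ s ∈ {s : K | ∃ y : K, y ^ 2 =
    ((C δ * X ^ m + C (q1 + q2 - 2 * q3)) ^ 2 + C (-4 * (q1 - q3) * (q2 - q3)) : K[X]).eval s},
    {x : K | x ^ 2 + (-(q1 + q2 + δ * s ^ m)) * x + (q1 * q2 + δ * s ^ m * q3) = 0}) ?_)).union
    (({q1, q2, q3} : Finset K).finite_toSet)).subset ?_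
  · intro δ hδ
    exact (key δ hδ).biUnion fun s _ => quad_finite _ _
  · intro x hx
    by_cases h1 : x = q1
    · right; simp [h1]
    by_cases h2 : x = q2
    · right; simp [h2]
    by_cases h3 : x = q3
    · right; simp [h3]
    left
    have h3' := sub_ne_zero.mpr h3
    have hne : (x - q1) * (x - q2) / (x - q3) ≠ 0 :=
      div_ne_zero (mul_ne_zero (sub_ne_zero.mpr h1) (sub_ne_zero.mpr h2)) h3'
    obtain ⟨t, ht, b, -, hb⟩ := hT _ hne (by
      intro v hv
      obtain ⟨⟨g, hg⟩, ⟨g', hg'⟩, g'', hg''⟩ := hx v hv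
      exact ⟨g * g' / g'', by rw [map_div₀, map_mul, hg, hg', hg'', div_pow, mul_pow]⟩)
    have hb' : (x - q1) * (x - q2) = t * b ^ m * (x - q3) := by
      rw [← hb]; field_simp
    simp only [Set.mem_iUnion]
    refine ⟨t, ht, b, ⟨2 * x - (q1 + q2 + t * b ^ m), ?_⟩, ?_⟩
    · simp only [eval_add, eval_mul, eval_C, eval_pow, eval_X]
      linear_combination 4 * hb'
    · simp only [Set.mem_ofPred_eq]
      linear_combination hb'

section local_factor
variable {K : Type*} [Field K] {Γ : Type*} [LinearOrderedCommGroupWithZero Γ] (v : Valuation K Γ)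

/-- the factors of a product which is an `m`-th power -/
lemma factor_pow {R : Finset K} {c w : K} {m : ℕ} (hm : m ≠ 0) (hR : ∀ r ∈ R, v r ≤ 1)
    (hd : ∀ r ∈ R, ∀ s ∈ R, r ≠ s → v (r - s) = 1) (hc : v c = 1)
    (hp : ∃ g, v (c * ∏ r ∈ R, (w - r)) = g ^ m) {r s : K} (hr : r ∈ R) (hs : s ∈ R) (hws : w ≠ s) :
    ∃ g, v (w - r) = g ^ m * v (w - s) := by
  classical
  rcases lt_or_ge 1 (v w) with h1 | h1
  · rw [v_sub_of_large v (hR r hr) h1, v_sub_of_large v (hR s hs) h1]
    exact ⟨1, by rw [one_pow, one_mul]⟩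
  · have hle : ∀ r ∈ R, v (w - r) ≤ 1 := fun r hr => (v.map_sub _ _).trans (max_le h1 (hR r hr))
    have key : ∀ r ∈ R, ∃ g, v (w - r) = g ^ m := by
      intro r hr
      rcases lt_or_eq_of_le (hle r hr) with h2 | h2
      · have h3 : ∀ s ∈ R.erase r, v (w - s) = 1 := by
          intro s hs
          have h4 : w - s = (w - r) + (r - s) := by ring
          have h5 := hd r hr s (Finset.mem_of_mem_erase hs) (Finset.ne_of_mem_erase hs).symm
          rw [h4, Valuation.map_add_eq_of_lt_right, h5]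
          rw [h5]; exact h2
        obtain ⟨g, hg⟩ := hp
        refine ⟨g, ?_⟩
        rw [← hg, map_mul, hc, one_mul, ← Finset.mul_prod_erase R (fun s => w - s) hr, map_mul,
          map_prod, Finset.prod_congr rfl h3, Finset.prod_const_one, mul_one]
      · exact ⟨1, by rw [one_pow, h2]⟩
    obtain ⟨g, hg⟩ := key r hr
    obtain ⟨g', hg'⟩ := key s hs
    have hg0 : g' ≠ 0 := by
      rintro rfl
      rw [zero_pow hm] at hg'
      exact (Valuation.ne_zero_iff _).mpr (sub_ne_zero.mpr hws) hg'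
    refine ⟨g / g', ?_⟩
    rw [hg, hg', div_pow, div_mul_cancel₀ _ (pow_ne_zero _ hg0)]

end local_factor

/-- two points, exponent four -/
theorem two_pts_four (K : Type) [Field K] [NumberField K] {S : Set (HeightOneSpectrum (𝓞 K))}
    (hS : S.Finite) {q1 q2 : K} (h12 : q1 ≠ q2) :
    {x : K | ∀ v ∉ S, (∃ g, v.valuation K (x - q1) = g ^ 4) ∧
      ∃ g, v.valuation K (x - q2) = g ^ 4}.Finite := by
  classical
  obtain ⟨T, hT0, hT⟩ := sel_pow (K := K) (m := 4) (by omega) S hS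
  -- reduce to a finite set of equations `x - q1 = δ w ^ 4`, `x - q2 = ε u ^ 4`
  have key : ∀ δ ∈ T, ∀ ε ∈ T, {w : K | ∃ u : K, δ * w ^ 4 - (q2 - q1) = ε * u ^ 4}.Finite := by
    intro δ hδ ε hε
    have ha : q2 - q1 ≠ 0 := sub_ne_zero.mpr h12.symm
    have hδ0 := hT0 δ hδ
    have hε0 := hT0 ε hε
    obtain ⟨L, _, _, φ, hφ⟩ := exists_mroots K (m := 4) (by norm_num) {(q2 - q1) / δ, ε}
    obtain ⟨α, hα⟩ := hφ ((q2 - q1) / δ) (by simp)
    obtain ⟨M, _, _, ψ, hψ⟩ := exists_sqrts L {(-1 : L)}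
    obtain ⟨i, hi⟩ := hψ (-1) (by simp)
    rw [map_neg, map_one] at hi
    set Θ := ψ.comp φ with hΘ
    have hα0 : ψ α ≠ 0 := by
      intro h
      rw [_root_.map_eq_zero] at h
      rw [h, zero_pow (by norm_num), _root_.map_eq_zero] at hα
      exact div_ne_zero ha hδ0 hα
    have hα4 : Θ δ * (ψ α) ^ 4 = Θ (q2 - q1) := by
      rw [← map_pow, ← hα]
      change Θ δ * Θ ((q2 - q1) / δ) = _
      rw [← map_mul, mul_div_cancel₀ _ hδ0]
    have hi0 : i ≠ 0 := by rintro rfl; simp at hi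
    set β := ψ α with hβ
    have i1 : i ≠ 1 := by rintro rfl; norm_num at hi
    have im1 : i ≠ -1 := by rintro rfl; norm_num at hi
    have two0 : (2 : M) ≠ 0 := two_ne_zero
    -- the four roots
    have n1 : β ≠ i * β := fun h => i1 (mul_right_cancel₀ hα0 (by rw [one_mul]; exact h.symm))
    have n2 : β ≠ -β := by
      intro h
      have : 2 * β = 0 := by linear_combination h
      exact mul_ne_zero two0 hα0 this
    have n3 : β ≠ -(i * β) := fun h => im1 (mul_right_cancel₀ hα0 (by linear_combination h))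
    have n4 : i * β ≠ -β := fun h => im1 (mul_right_cancel₀ hα0 (by linear_combination h))
    have n5 : i * β ≠ -(i * β) := by
      intro h
      have : 2 * (i * β) = 0 := by linear_combination h
      exact mul_ne_zero two0 (mul_ne_zero hi0 hα0) this
    have n6 : -β ≠ -(i * β) := fun h => n1 (neg_injective h)
    set R : Finset M := {β, i * β, -β, -(i * β)} with hR
    have hprod : ∀ w : M, Θ δ * ∏ r ∈ R, (w - r) = Θ δ * w ^ 4 - Θ (q2 - q1) := by
      intro w
      rw [hR, Finset.prod_insert (by simp [n1, n2, n3]), Finset.prod_insert (by simp [n4, n5]),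
        Finset.prod_insert (by simp [n6]), Finset.prod_singleton, ← hα4]
      linear_combination ((Θ δ) * (w ^ 2 - β ^ 2) * β ^ 2) * hi
    -- the finite set over `M`
    set e1 := (i * β - β)⁻¹ with he1
    set e2 := (-β - β)⁻¹ with he2
    set e3 := (-(i * β) - β)⁻¹ with he3
    have e12 : e1 ≠ e2 := fun h => n4 (sub_left_injective (inv_injective h))
    have e13 : e1 ≠ e3 := fun h => n5 (sub_left_injective (inv_injective h))
    have e23 : e2 ≠ e3 := fun h => n6 (sub_left_injective (inv_injective h))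
    -- bad places
    have hbad : (⋃ r ∈ R, ({v : HeightOneSpectrum (𝓞 M) | ¬ v.valuation M r ≤ 1} ∪
        ⋃ s ∈ R, {v : HeightOneSpectrum (𝓞 M) | ¬ (r ≠ s → v.valuation M (r - s) = 1)})).Finite := by
      refine R.finite_toSet.biUnion fun r _ => (finite_int r).union ?_
      refine R.finite_toSet.biUnion fun s _ => ?_
      by_cases hrs : r = s
      · simp [hrs]
      · refine (finite_unit (r - s) (sub_ne_zero.mpr hrs)).subset ?_
        intro v hv h
        exact hv fun _ => h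
    have hfin := three_pts M (hbad.union (((finite_unit (Θ δ) ((_root_.map_ne_zero Θ).mpr hδ0)).union
      (finite_unit (Θ ε) ((_root_.map_ne_zero Θ).mpr hε0))).union
      (((finite_unit _ (sub_ne_zero.mpr n1.symm)).union (finite_unit _ (sub_ne_zero.mpr n2.symm))).union
      (finite_unit _ (sub_ne_zero.mpr n3.symm))))) (m := 4)
      (by norm_num) e12 e13 e23
    refine ((((hfin.image (fun z => β + z⁻¹)).union (Set.finite_singleton β)).preimage
      (f := Θ) Θ.injective.injOn)).subset ?_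
    rintro w ⟨u, hu⟩
    rw [Set.mem_preimage]
    by_cases hwβ : Θ w = β
    · right; exact hwβ
    left
    have hwβ' : Θ w - β ≠ 0 := sub_ne_zero.mpr hwβ
    refine ⟨(Θ w - β)⁻¹, ?_, by simp⟩
    intro v hv
    simp only [Set.mem_union, Set.mem_iUnion, Set.mem_ofPred_eq, not_or, not_exists, not_not] at hv
    obtain ⟨hv1, ⟨hv2, hv3⟩, ⟨hv4, hv5⟩, hv6⟩ := hv
    have hp : ∃ g, v.valuation M (Θ δ * ∏ r ∈ R, (Θ w - r)) = g ^ 4 := by
      rw [hprod]
      refine ⟨v.valuation M (Θ u), ?_⟩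
      have : Θ δ * Θ w ^ 4 - Θ (q2 - q1) = Θ ε * Θ u ^ 4 := by
        rw [← map_pow, ← map_pow, ← map_mul, ← map_mul, ← map_sub, hu]
      rw [this, map_mul, hv3, one_mul, map_pow]
    have hfac : ∀ r ∈ R, ∃ g, v.valuation M (Θ w - r) = g ^ 4 * v.valuation M (Θ w - β) := by
      intro r hr
      exact factor_pow (v.valuation M) (by norm_num) (fun r hr => (hv1 r hr).1)
        (fun r hr s hs hrs => (hv1 r hr).2 s hs hrs) hv2 hp hr (by simp [hR]) hwβ
    have fin : ∀ r ∈ R, r - β ≠ 0 → v.valuation M (r - β) = 1 →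
        ∃ g, v.valuation M ((Θ w - β)⁻¹ - (r - β)⁻¹) = g ^ 4 := by
      intro r hr hrβ hvr
      obtain ⟨g, hg⟩ := hfac r hr
      refine ⟨g, ?_⟩
      have h1 : (Θ w - β)⁻¹ - (r - β)⁻¹ = -((Θ w - r) / (Θ w - β) / (r - β)) := by
        field_simp
        ring
      rw [h1, Valuation.map_neg, map_div₀, map_div₀, hvr, div_one, hg, mul_div_cancel_right₀]
      exact (Valuation.ne_zero_iff _).mpr hwβ'
    exact ⟨fin _ (by simp [hR]) (sub_ne_zero.mpr n1.symm) hv4,
      fin _ (by simp [hR]) (sub_ne_zero.mpr n2.symm) hv5,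
      fin _ (by simp [hR]) (sub_ne_zero.mpr n3.symm) hv6⟩
  refine (((T.finite_toSet.biUnion (t := fun δ => ⋃ ε ∈ (T : Set K), (fun w => q1 + δ * w ^ 4) ''
    {w : K | ∃ u : K, δ * w ^ 4 - (q2 - q1) = ε * u ^ 4}) ?_)).union
    (({q1, q2} : Finset K).finite_toSet)).subset ?_
  · intro δ hδ
    exact T.finite_toSet.biUnion fun ε hε => (key δ hδ ε hε).image _
  · intro x hx
    by_cases h1 : x = q1
    · right; simp [h1]
    by_cases h2 : x = q2
    · right; simp [h2]
    left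
    obtain ⟨δ, hδ, w, -, hw⟩ := hT _ (sub_ne_zero.mpr h1) (fun v hv => (hx v hv).1)
    obtain ⟨ε, hε, u, -, hu⟩ := hT _ (sub_ne_zero.mpr h2) (fun v hv => (hx v hv).2)
    simp only [Set.mem_iUnion]
    refine ⟨δ, hδ, ε, hε, w, ⟨u, ?_⟩, ?_⟩
    · rw [← hw, ← hu]; ring
    · simp only
      rw [← hw]; ring

/-- **Finiteness for power classes**, affine form. -/
theorem pow_fin (K : Type) [Field K] [NumberField K] {S : Set (HeightOneSpectrum (𝓞 K))}
    (hS : S.Finite) {m : ℕ} {R : Finset K} (hR : (4 ≤ m ∧ 2 ≤ R.card) ∨ (3 ≤ m ∧ 3 ≤ R.card) ∨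
      (2 ≤ m ∧ 4 ≤ R.card)) :
    {x : K | ∀ v ∉ S, ∀ r ∈ R, ∃ g, v.valuation K (x - r) = g ^ m}.Finite := by
  classical
  by_cases h1 : 4 ≤ m ∧ 2 ≤ R.card
  · obtain ⟨R', hR', hcard⟩ := Finset.exists_subset_card_eq h1.2
    obtain ⟨q1, q2, h12, hR2⟩ := Finset.card_eq_two.mp hcard
    have m1 : q1 ∈ R := hR' (by rw [hR2]; simp)
    have m2 : q2 ∈ R := hR' (by rw [hR2]; simp)
    rcases Nat.lt_or_ge m 5 with h5 | h5
    · have hm4 : m = 4 := by omega
      subst hm4
      exact (two_pts_four K hS h12).subset fun x hx v hv => ⟨hx v hv q1 m1, hx v hv q2 m2⟩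
    · exact (two_pts K hS h5 h12).subset fun x hx v hv => ⟨hx v hv q1 m1, hx v hv q2 m2⟩
  by_cases h2 : 3 ≤ m ∧ 3 ≤ R.card
  · obtain ⟨R', hR', hcard⟩ := Finset.exists_subset_card_eq h2.2
    obtain ⟨q1, q2, q3, h12, h13, h23, hR3⟩ := Finset.card_eq_three.mp hcard
    have m1 : q1 ∈ R := hR' (by rw [hR3]; simp)
    have m2 : q2 ∈ R := hR' (by rw [hR3]; simp)
    have m3 : q3 ∈ R := hR' (by rw [hR3]; simp)
    exact (three_pts K hS h2.1 h12 h13 h23).subset fun x hx v hv =>
      ⟨hx v hv q1 m1, hx v hv q2 m2, hx v hv q3 m3⟩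
  · have h3 : m = 2 ∧ 4 ≤ R.card := by omega
    obtain ⟨rfl, h4⟩ := h3
    obtain ⟨R', hR', hcard⟩ := Finset.exists_subset_card_eq h4
    obtain ⟨q1, q2, q3, q4, h12, h13, h14, h23, h24, h34, hR4⟩ := Finset.card_eq_four.mp hcard
    have m1 : q1 ∈ R := hR' (by rw [hR4]; simp)
    have m2 : q2 ∈ R := hR' (by rw [hR4]; simp)
    have m3 : q3 ∈ R := hR' (by rw [hR4]; simp)
    have m4 : q4 ∈ R := hR' (by rw [hR4]; simp)
    refine (four_val K hS h12 h13 h23 h14.symm h24.symm h34.symm).subset ?_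
    intro x hx v hv
    have h5 : ∀ r ∈ R, IsSquare (v.valuation K (x - r)) := by
      intro r hr
      obtain ⟨g, hg⟩ := hx v hv r hr
      exact ⟨g, by rw [hg, sq]⟩
    exact ⟨h5 q1 m1, h5 q2 m2, h5 q3 m3, h5 q4 m4⟩

/-- **Finiteness for power classes**, projective form. -/
theorem pow_fin_proj (K : Type) [Field K] [NumberField K] {S : Set (HeightOneSpectrum (𝓞 K))}
    (hS : S.Finite) {m : ℕ} {R : Finset K} (hR : (4 ≤ m ∧ 3 ≤ R.card) ∨ (3 ≤ m ∧ 4 ≤ R.card) ∨
      (2 ≤ m ∧ 5 ≤ R.card)) :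
    {x : K | ∀ v ∉ S, ∀ r ∈ R, ∀ s ∈ R, ∃ g, v.valuation K (x - r) = g ^ m * v.valuation K (x - s)}.Finite := by
  classical
  obtain ⟨r0, hr0⟩ : R.Nonempty := Finset.card_pos.mp (by omega)
  set R1 := (R.erase r0).image (fun r => (r - r0)⁻¹) with hR1
  have hinj : Set.InjOn (fun r => (r - r0)⁻¹) (R.erase r0 : Set K) := by
    intro a _ b _ hab
    exact sub_left_injective (inv_injective hab)
  have hcard : R1.card = R.card - 1 := by
    rw [hR1, Finset.card_image_of_injOn hinj, Finset.card_erase_of_mem hr0]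
  have hbad : (⋃ r ∈ R.erase r0, {v : HeightOneSpectrum (𝓞 K) | v.valuation K (r - r0) ≠ 1}).Finite :=
    (R.erase r0).finite_toSet.biUnion fun r hr =>
      finite_unit _ (sub_ne_zero.mpr (Finset.ne_of_mem_erase hr))
  have hfin := pow_fin K (hS.union hbad) (m := m) (R := R1) (by rw [hcard]; omega)
  refine ((hfin.image (fun z => r0 + z⁻¹)).union (Set.finite_singleton r0)).subset ?_
  intro x hx
  by_cases hx0 : x = r0
  · right; exact hx0
  left
  have hx0' : x - r0 ≠ 0 := sub_ne_zero.mpr hx0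
  refine ⟨(x - r0)⁻¹, ?_, by simp⟩
  intro v hv z hz
  rw [hR1, Finset.mem_image] at hz
  obtain ⟨r, hr, rfl⟩ := hz
  simp only [Set.mem_union, Set.mem_iUnion, Set.mem_ofPred_eq, not_or, not_exists, not_not] at hv
  obtain ⟨hv1, hv2⟩ := hv
  have hvr := hv2 r hr
  have hrr : r - r0 ≠ 0 := sub_ne_zero.mpr (Finset.ne_of_mem_erase hr)
  obtain ⟨g, hg⟩ := hx v hv1 r (Finset.mem_of_mem_erase hr) r0 hr0
  refine ⟨g, ?_⟩
  have h1 : (x - r0)⁻¹ - (r - r0)⁻¹ = -((x - r) / (x - r0) / (r - r0)) := by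
    field_simp
    ring
  rw [h1, Valuation.map_neg, map_div₀, map_div₀, hvr, div_one, hg, mul_div_cancel_right₀]
  exact (Valuation.ne_zero_iff _).mpr hx0'

end Pool.Agent.H422.HE
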